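import Pool.Agent.Lib.MP_293cc0_an.U.Twice

/-!
# MP_293cc0_an, U-regime, module Complete (250 lines): the waiting function is completed at the column `r`

State with the trees `T (some i)`, `i : κ`, and `T none ∋ l`, the pairs `(x i, l)` are on the waiting list. `x i, y i ∈ T (some i)` are older than `l`
and different. Let `x* = x i₀` be the highest of the `x i` in the column of `l` (`κ` is nonempty), `y*` the highest element of `{y i} ∪ {l}` in the
column of `r`: `y* = l` (`j₀ = none`) or `y* = y j` (`j₀ = some j`). `l < r` because `l ∈ T none ⊆ S`, so `l < n ≤ r`.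
New function: `stat_two` with `A = image x univ`, `B = image y univ` (disjoint: `x i = y j` with `i ≠ j` contradicts the disjointness of the trees,
and `y i ≠ x i`), so `Option ι` and `K + 1`, `core none = …`, `a none = x*`, `b none = y*`, `τ none = r`. Old functions: service at the column `r` as in
`St.attach`, for the tokens `y i ∈ T (some i)`, `l ∈ T none`. All pairs with `W = ∅` are covered: the pairs `(x i, l)` and `(y i, r)`, `(l, r)` are in `core none`.

New trees. CASE `j₀ ≠ some i₀` (merge): `κ' = Option {k : Option κ // k ≠ j₀}`, `T' none = {r}`,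
`T' (some k) = if k = some i₀ then T (some i₀) ∪ T j₀ else T k`, `ρ = none`,
`φ k = if k = j₀ then some (some ⟨some i₀, _⟩) else some (some ⟨k, _⟩)`.
Tokens `z'`: `z' none = r`. If `z' (some i₀) ∈ T (some i₀)`: old `g` for the tokens `z' (some k)` (`k ≠ j₀`) and `y*` for `j₀`; send `y*` to `none`.
Otherwise `z' (some i₀) ∈ T j₀`: old `g` for the tokens `z'` with `some i₀ ↦ x*`, `j₀ ↦ z' (some i₀)`; send `x*` to `none`.
CASE `j₀ = some i₀` (close): then `y* = y i₀`; `κ' = Option {k : Option κ // k ≠ some i₀}`, `T' none = {r}`, `T' (some k) = T k`, `φ (some i₀) = none`,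
`φ k = some (some ⟨k, _⟩)`. Tokens `z'`: old `g` for the tokens `z'` and `x*` for `some i₀`; send `x*` to `none`.
`card κ' = (card κ + 1 - 1) + 1` (`Fintype.card_subtype_compl`, or `Fintype.card_option` and `Fintype.card_subtype_ne`-like lemmas).
(It is convenient to prove first a lemma about the service at the column `r`, or to use `St.attach`-like code for it; you may also import `U.Attach` for a common
private lemma if its author has made one, but do not wait for it.)
-/

set_option autoImplicit false

namespace Pool.Agent.Lib.MP_293cc0_an.U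

open Finset

variable {X : Type} [MetricSpace X] {N : ℕ}

/-- The service of the column `t`. -/
private theorem exists_service_c {ι : Type} {S : Finset ℕ} (a b : ι → ℕ)
    (σ : ι → ℕ → Option Bool) (g : ℕ → ι) (P : ℕ → Prop)
    (h1 : ∀ u ∈ S, P u → u = a (g u) ∨ u = b (g u))
    (h2 : ∀ u ∈ S, ∀ v ∈ S, P u → P v → g u = g v → u = v) (t : ℕ) :
    ∃ σ' : ι → ℕ → Option Bool, (∀ k v, v ≠ t → σ' k v = σ k v) ∧
      ∀ u ∈ S, P u → (σ' (g u) t = some true ∧ u = a (g u)) ∨
        (σ' (g u) t = some false ∧ u = b (g u)) := by
  classical
  refine ⟨fun k v => if v = t then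
    (if ∃ u ∈ S, P u ∧ g u = k ∧ u = a k then some true else some false) else σ k v, ?_, ?_⟩
  · intro k v hv
    simp only [if_neg hv]
  · intro u hu hP
    simp only [if_true]
    by_cases h : ∃ u' ∈ S, P u' ∧ g u' = g u ∧ u' = a (g u)
    · rw [if_pos h]
      obtain ⟨u', hu', hP', hg, ha⟩ := h
      have := h2 u' hu' u hu hP' hP hg
      subst this
      exact Or.inl ⟨rfl, ha⟩
    · rw [if_neg h]
      rcases h1 u hu hP with h3 | h3
      · exact absurd ⟨u, hu, hP, rfl, h3⟩ h
      · exact Or.inr ⟨rfl, h3⟩

/-- The common part of the two cases: the new function serves all tokens `w j` and the waiting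
list; the token condition of the new trees is reduced to the one of the old trees. -/
private theorem St.close {C : Comb X N} {κ₀ : Type} {n : ℕ} {S : Finset ℕ}
    {W : Finset (ℕ × ℕ)} {K : ℕ} {T : κ₀ → Finset ℕ} (h : St C n S W K T) {r : ℕ} (hn : n ≤ r)
    (hr : r < N) (w : κ₀ → ℕ) (hw : ∀ j, w j ∈ T j) {core₀ : Finset (ℕ × ℕ)} {x₀ y₀ : ℕ}
    (hst : Stat C core₀ x₀ y₀ r) (hc1 : ∀ j, (w j, r) ∈ core₀) (hc2 : ∀ p ∈ W, p ∈ core₀)
    {κ' : Type} (T' : κ' → Finset ℕ) (hTS' : ∀ j, T' j ⊆ insert r S)
    (hdis' : ∀ i j, i ≠ j → Disjoint (T' i) (T' j))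
    (htok' : ∀ z' : κ' → ℕ, (∀ j, z' j ∈ T' j) → ∃ (e : ℕ) (w' : κ₀ → ℕ),
      (e = x₀ ∨ e = y₀) ∧ (∀ j, w' j ∈ T j) ∧
      ∀ u ∈ insert r S, (∀ j, u ≠ z' j) → u = e ∨ (u ∈ S ∧ ∀ j, u ≠ w' j)) :
    St C (r + 1) (insert r S) ∅ (K + 1) T' := by
  classical
  obtain ⟨-, hSn, hTS, hdis, ι, _, core, a, b, τ, σ, hcard, hstat, hτ, hpairs, htok⟩ := h
  obtain ⟨g0, hg1, hg2⟩ := htok w hw
  obtain ⟨σ1, hσ1, hσ2⟩ := exists_service_c (S := S) a b σ g0 (fun u => ∀ i, u ≠ w i)
    hg1 hg2 r
  have hrS : r ∉ S := fun h => by have := hSn r h; omega
  refine ⟨hr, ?_, hTS', hdis', Option ι, inferInstance,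
    fun o => o.elim core₀ core, fun o => o.elim x₀ a, fun o => o.elim y₀ b,
    fun o => o.elim r τ, fun o => o.elim (fun _ => none) σ1, ?_, ?_, ?_, ?_, ?_⟩
  · intro u hu
    rcases Finset.mem_insert.mp hu with rfl | hu
    · omega
    · have := hSn u hu; omega
  · rw [Fintype.card_option, hcard]
  · rintro (_ | k)
    · exact hst
    · exact hstat k
  · rintro (_ | k)
    · exact Nat.lt_succ_self r
    · have := hτ k
      show τ k < r + 1
      omega
  · intro u hu v hv huv
    right
    rcases Finset.mem_insert.mp hv with rfl | hv
    · have huS : u ∈ S := by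
        rcases Finset.mem_insert.mp hu with rfl | hu
        · exact absurd huv (lt_irrefl _)
        · exact hu
      by_cases hz' : ∃ j, u = w j
      · obtain ⟨j, rfl⟩ := hz'
        exact ⟨none, Or.inl (hc1 j)⟩
      · have hP : ∀ j, u ≠ w j := fun j hj => hz' ⟨j, hj⟩
        refine ⟨some (g0 u), Or.inr ⟨?_, hσ2 u huS hP⟩⟩
        have := hτ (g0 u)
        show τ (g0 u) < v
        omega
    · have hvn := hSn v hv
      have huS : u ∈ S := by
        rcases Finset.mem_insert.mp hu with rfl | hu
        · omega
        · exact hu
      rcases hpairs u huS v hv huv with h | ⟨k, h⟩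
      · exact ⟨none, Or.inl (hc2 _ h)⟩
      · refine ⟨some k, ?_⟩
        show (u, v) ∈ core k ∨ (τ k < v ∧ ((σ1 k v = some true ∧ u = a k) ∨
          (σ1 k v = some false ∧ u = b k)))
        rw [hσ1 k v (by omega)]
        exact h
  · intro z' hz'
    obtain ⟨e, w', he, hw', hu'⟩ := htok' z' hz'
    obtain ⟨g1, hg3, hg4⟩ := htok w' hw'
    have hsplit : ∀ u ∈ insert r S, (∀ j, u ≠ z' j) → u ≠ e → u ∈ S ∧ ∀ j, u ≠ w' j := by
      intro u hu hP hue
      rcases hu' u hu hP with h | h
      · exact absurd h hue
      · exact h
    refine ⟨fun u => if u = e then none else some (g1 u), ?_, ?_⟩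
    · intro u hu hP
      by_cases hue : u = e
      · simp only [if_pos hue]
        rcases he with he | he
        · exact Or.inl (hue.trans he)
        · exact Or.inr (hue.trans he)
      · simp only [if_neg hue]
        obtain ⟨h5, h6⟩ := hsplit u hu hP hue
        exact hg3 u h5 h6
    · intro u hu v hv hPu hPv hg
      by_cases hue : u = e
      · by_cases hve : v = e
        · rw [hue, hve]
        · simp only [if_pos hue, if_neg hve] at hg
          exact absurd hg (by simp)
      · by_cases hve : v = e
        · simp only [if_neg hue, if_pos hve] at hg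
          exact absurd hg (by simp)
        · simp only [if_neg hue, if_neg hve] at hg
          obtain ⟨h5, h6⟩ := hsplit u hu hPu hue
          obtain ⟨h7, h8⟩ := hsplit v hv hPv hve
          exact hg4 u h5 v h7 h6 h8 (Option.some_injective _ hg)

private theorem card_opt {κ : Type} [Fintype κ] [DecidableEq κ] (j₀ : Option κ) :
    Fintype.card (Option {k : Option κ // k ≠ j₀}) = Fintype.card κ + 1 := by
  rw [Fintype.card_option]
  have h1 : Fintype.card {k : Option κ // k ≠ j₀} = Fintype.card (Option κ) - 1 := by
    have h2 := Fintype.card_subtype_compl (fun k : Option κ => k = j₀)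
    rw [Fintype.card_subtype_eq] at h2
    exact h2
  rw [h1, Fintype.card_option]
  omega

theorem St.complete {C : Comb X N} (hU : C.IsU) {κ : Type} [Fintype κ] [DecidableEq κ]
    [Nonempty κ] {n l : ℕ} {S : Finset ℕ} {K : ℕ} {T : Option κ → Finset ℕ} {x : κ → ℕ}
    (h : St C n S (univ.image fun i => (x i, l)) K T)
    (hx : ∀ i, x i ∈ T (some i) ∧ x i < l) (hl : l ∈ T none)
    (y : κ → ℕ) (hy : ∀ i, y i ∈ T (some i) ∧ y i < l ∧ y i ≠ x i)
    {r : ℕ} (hn : n ≤ r) (hr : r < N) :
    ∃ (κ' : Type) (_ : Fintype κ') (_ : DecidableEq κ') (T' : κ' → Finset ℕ) (ρ : κ')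
      (φ : Option κ → Option κ'),
      Fintype.card κ' = Fintype.card κ + 1 ∧ St C (r + 1) (insert r S) ∅ (K + 1) T' ∧
      T' ρ = {r} ∧ (∀ j j', φ j = some j' → T j ⊆ T' j' ∧ j' ≠ ρ) ∧
      ∀ j', j' ≠ ρ → ∃ j, φ j = some j' := by
  classical
  have hSn : ∀ u ∈ S, u < n := h.2.1
  have hTS : ∀ i, T i ⊆ S := h.2.2.1
  have hdis : ∀ i j, i ≠ j → Disjoint (T i) (T j) := h.2.2.2.1
  have hlr : l < r := lt_of_lt_of_le (hSn l (hTS _ hl)) hn
  have hrS : r ∉ S := fun h => by have := hSn r h; omega
  have hrT : ∀ j, r ∉ T j := fun j hj => hrS (hTS j hj)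
  have hSr : ∀ u ∈ insert r S, u ≠ r → u ∈ S := by
    intro u hu hur
    rcases Finset.mem_insert.mp hu with rfl | hu
    · exact absurd rfl hur
    · exact hu
  obtain ⟨i₀, -, hi₀⟩ := Finset.exists_max_image (Finset.univ : Finset κ)
    (fun i => C.e (x i) l) Finset.univ_nonempty
  obtain ⟨yy, hyn, hys⟩ : ∃ yy : Option κ → ℕ, yy none = l ∧ ∀ i, yy (some i) = y i :=
    ⟨fun o => o.elim l y, rfl, fun _ => rfl⟩
  have hyT : ∀ j, yy j ∈ T j := by
    rintro (_ | j)
    · rw [hyn]; exact hl
    · rw [hys]; exact (hy j).1
  obtain ⟨j₀, -, hj₀⟩ := Finset.exists_max_image (Finset.univ : Finset (Option κ))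
    (fun j => C.e (yy j) r) Finset.univ_nonempty
  have hyins : ∀ u, u ∈ insert l (univ.image y) ↔ ∃ j, yy j = u := by
    intro u
    constructor
    · intro hu
      rcases Finset.mem_insert.mp hu with rfl | hu
      · exact ⟨none, hyn⟩
      · obtain ⟨j, -, rfl⟩ := Finset.mem_image.mp hu
        exact ⟨some j, hys j⟩
    · rintro ⟨j, rfl⟩
      cases j with
      | none => rw [hyn]; exact Finset.mem_insert_self _ _
      | some j =>
        rw [hys]
        exact Finset.mem_insert_of_mem (Finset.mem_image_of_mem _ (Finset.mem_univ j))
  have hst := stat_two hU hlr hr (univ.image x) (univ.image y)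
    (by
      intro u hu
      obtain ⟨i, -, rfl⟩ := Finset.mem_image.mp hu
      exact (hx i).2)
    (by
      intro u hu
      obtain ⟨i, -, rfl⟩ := Finset.mem_image.mp hu
      exact (hy i).2.1)
    (by
      rw [Finset.disjoint_left]
      intro u hu hu'
      obtain ⟨i, -, rfl⟩ := Finset.mem_image.mp hu
      obtain ⟨j, -, hj⟩ := Finset.mem_image.mp hu'
      by_cases hij : i = j
      · subst hij
        exact (hy i).2.2 hj
      · have h1 := Finset.disjoint_left.mp (hdis (some i) (some j)
          (fun e => hij (Option.some_injective _ e))) (hx i).1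
        rw [← hj] at h1
        exact h1 (hy j).1)
    (x := x i₀) (y := yy j₀) (Finset.mem_image_of_mem _ (Finset.mem_univ i₀))
    (by
      intro u hu
      obtain ⟨i, -, rfl⟩ := Finset.mem_image.mp hu
      exact hi₀ i (Finset.mem_univ i))
    ((hyins _).mpr ⟨j₀, rfl⟩)
    (by
      intro u hu
      obtain ⟨j, rfl⟩ := (hyins u).mp hu
      exact hj₀ j (Finset.mem_univ j))
  have hc1 : ∀ j, (yy j, r) ∈ (((univ.image x).image fun u => (u, l)) ∪
      (insert l (univ.image y)).image fun u => (u, r)) := fun j =>
    Finset.mem_union_right _ (Finset.mem_image_of_mem _ ((hyins _).mpr ⟨j, rfl⟩))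
  have hc2 : ∀ p ∈ (univ.image fun i => (x i, l)), p ∈ (((univ.image x).image fun u => (u, l)) ∪
      (insert l (univ.image y)).image fun u => (u, r)) := by
    intro p hp
    obtain ⟨i, -, rfl⟩ := Finset.mem_image.mp hp
    exact Finset.mem_union_left _ (Finset.mem_image_of_mem _
      (Finset.mem_image_of_mem _ (Finset.mem_univ i)))
  by_cases hne : j₀ = some i₀
  · -- close
    refine ⟨Option {k : Option κ // k ≠ some i₀}, inferInstance, inferInstance,
      fun o => o.elim {r} fun k => T k.1, none,
      fun k => if hk : k = some i₀ then none else some (some ⟨k, hk⟩), card_opt _, ?_, rfl,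
      ?_, ?_⟩
    · refine h.close hn hr yy hyT hst hc1 hc2 _ ?_ ?_ ?_
      · rintro (_ | k)
        · exact Finset.singleton_subset_iff.mpr (Finset.mem_insert_self _ _)
        · exact (hTS k.1).trans (Finset.subset_insert _ _)
      · rintro (_ | k) (_ | k') hkk
        · exact absurd rfl hkk
        · exact Finset.disjoint_singleton_left.mpr (hrT _)
        · exact Finset.disjoint_singleton_right.mpr (hrT _)
        · exact hdis k.1 k'.1 (fun e => hkk (congrArg some (Subtype.ext e)))
      · intro z' hz'
        have hzn : z' none = r := Finset.mem_singleton.mp (hz' none)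
        have hzs : ∀ k, z' (some k) ∈ T k.1 := fun k => hz' (some k)
        refine ⟨x i₀, fun k => if hk : k = some i₀ then x i₀ else z' (some ⟨k, hk⟩),
          Or.inl rfl, ?_, ?_⟩
        · intro k
          by_cases hk : k = some i₀
          · subst hk
            simp only [dif_pos]
            exact (hx i₀).1
          · simp only [dif_neg hk]
            exact hzs ⟨k, hk⟩
        · intro u hu hP
          by_cases hux : u = x i₀
          · exact Or.inl hux
          · refine Or.inr ⟨hSr u hu (fun e => hP none (by rw [hzn]; exact e)), ?_⟩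
            intro k
            by_cases hk : k = some i₀
            · simp only [dif_pos hk]
              exact hux
            · simp only [dif_neg hk]
              exact hP _
    · intro j j' hj
      by_cases hk : j = some i₀
      · simp only [dif_pos hk] at hj
        exact absurd hj (by simp)
      · simp only [dif_neg hk] at hj
        have := Option.some_injective _ hj
        subst this
        exact ⟨fun u hu => hu, by simp⟩
    · rintro (_ | k) hk
      · exact absurd rfl hk
      · exact ⟨k.1, by simp only [dif_neg k.2]⟩
  · -- merge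
    have hne' : some i₀ ≠ j₀ := fun e => hne e.symm
    refine ⟨Option {k : Option κ // k ≠ j₀}, inferInstance, inferInstance,
      fun o => o.elim {r} fun k => if k.1 = some i₀ then T (some i₀) ∪ T j₀ else T k.1, none,
      fun k => if hk : k = j₀ then some (some ⟨some i₀, hne'⟩) else some (some ⟨k, hk⟩),
      card_opt _, ?_, rfl, ?_, ?_⟩
    · refine h.close hn hr yy hyT hst hc1 hc2 _ ?_ ?_ ?_
      · rintro (_ | k)
        · exact Finset.singleton_subset_iff.mpr (Finset.mem_insert_self _ _)
        · show (if k.1 = some i₀ then T (some i₀) ∪ T j₀ else T k.1) ⊆ insert r S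
          split_ifs
          · exact (Finset.union_subset (hTS _) (hTS _)).trans (Finset.subset_insert _ _)
          · exact (hTS k.1).trans (Finset.subset_insert _ _)
      · rintro (_ | k) (_ | k') hkk
        · exact absurd rfl hkk
        · refine Finset.disjoint_singleton_left.mpr ?_
          show r ∉ (if k'.1 = some i₀ then T (some i₀) ∪ T j₀ else T k'.1)
          split_ifs
          · intro hu
            rcases Finset.mem_union.mp hu with hu | hu
            · exact hrT _ hu
            · exact hrT _ hu
          · exact hrT _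
        · refine Finset.disjoint_singleton_right.mpr ?_
          show r ∉ (if k.1 = some i₀ then T (some i₀) ∪ T j₀ else T k.1)
          split_ifs
          · intro hu
            rcases Finset.mem_union.mp hu with hu | hu
            · exact hrT _ hu
            · exact hrT _ hu
          · exact hrT _
        · have hkk' : k.1 ≠ k'.1 := fun e => hkk (congrArg some (Subtype.ext e))
          show Disjoint (if k.1 = some i₀ then T (some i₀) ∪ T j₀ else T k.1)
            (if k'.1 = some i₀ then T (some i₀) ∪ T j₀ else T k'.1)
          by_cases h1 : k.1 = some i₀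
          · have h2 : k'.1 ≠ some i₀ := fun e => hkk' (h1.trans e.symm)
            rw [if_pos h1, if_neg h2, Finset.disjoint_union_left]
            exact ⟨hdis _ _ h2.symm, hdis _ _ k'.2.symm⟩
          · by_cases h2 : k'.1 = some i₀
            · rw [if_neg h1, if_pos h2, Finset.disjoint_union_right]
              exact ⟨hdis _ _ h1, hdis _ _ k.2⟩
            · rw [if_neg h1, if_neg h2]
              exact hdis _ _ hkk'
      · intro z' hz'
        have hzn : z' none = r := Finset.mem_singleton.mp (hz' none)
        have hz0 : z' (some ⟨some i₀, hne'⟩) ∈ T (some i₀) ∪ T j₀ := by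
          have h1 : z' (some ⟨some i₀, hne'⟩) ∈ (if (some i₀ : Option κ) = some i₀ then
            T (some i₀) ∪ T j₀ else T (some i₀)) := hz' (some ⟨some i₀, hne'⟩)
          rwa [if_pos rfl] at h1
        have hzs : ∀ k, k.1 ≠ some i₀ → z' (some k) ∈ T k.1 := by
          intro k hk
          have h1 : z' (some k) ∈ (if k.1 = some i₀ then T (some i₀) ∪ T j₀ else T k.1) :=
            hz' (some k)
          rwa [if_neg hk] at h1
        rcases Finset.mem_union.mp hz0 with h0 | h0
        · refine ⟨yy j₀, fun k => if hk : k = j₀ then yy j₀ else z' (some ⟨k, hk⟩),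
            Or.inr rfl, ?_, ?_⟩
          · intro k
            by_cases hk : k = j₀
            · subst hk
              simp only [dif_pos]
              exact hyT _
            · simp only [dif_neg hk]
              by_cases hk' : k = some i₀
              · subst hk'
                exact h0
              · exact hzs ⟨k, hk⟩ hk'
          · intro u hu hP
            by_cases hux : u = yy j₀
            · exact Or.inl hux
            · refine Or.inr ⟨hSr u hu (fun e => hP none (by rw [hzn]; exact e)), ?_⟩
              intro k
              by_cases hk : k = j₀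
              · simp only [dif_pos hk]
                exact hux
              · simp only [dif_neg hk]
                exact hP _
        · refine ⟨x i₀, fun k => if hk : k = j₀ then z' (some ⟨some i₀, hne'⟩) else
            if k = some i₀ then x i₀ else z' (some ⟨k, hk⟩), Or.inl rfl, ?_, ?_⟩
          · intro k
            by_cases hk : k = j₀
            · subst hk
              simp only [dif_pos]
              exact h0
            · simp only [dif_neg hk]
              by_cases hk' : k = some i₀
              · rw [if_pos hk', hk']
                exact (hx i₀).1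
              · rw [if_neg hk']
                exact hzs ⟨k, hk⟩ hk'
          · intro u hu hP
            by_cases hux : u = x i₀
            · exact Or.inl hux
            · refine Or.inr ⟨hSr u hu (fun e => hP none (by rw [hzn]; exact e)), ?_⟩
              intro k
              by_cases hk : k = j₀
              · simp only [dif_pos hk]
                exact hP _
              · simp only [dif_neg hk]
                by_cases hk' : k = some i₀
                · rw [if_pos hk']
                  exact hux
                · rw [if_neg hk']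
                  exact hP _
    · intro j j' hj
      by_cases hk : j = j₀
      · simp only [dif_pos hk] at hj
        have := Option.some_injective _ hj
        subst this
        refine ⟨?_, by simp⟩
        show T j ⊆ (if (some i₀ : Option κ) = some i₀ then T (some i₀) ∪ T j₀ else T (some i₀))
        rw [if_pos rfl, hk]
        exact Finset.subset_union_right
      · simp only [dif_neg hk] at hj
        have := Option.some_injective _ hj
        subst this
        refine ⟨?_, by simp⟩
        show T j ⊆ (if j = some i₀ then T (some i₀) ∪ T j₀ else T j)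
        split_ifs with h1
        · rw [h1]
          exact Finset.subset_union_left
        · exact fun u hu => hu
    · rintro (_ | k) hk
      · exact absurd rfl hk
      · exact ⟨k.1, by simp only [dif_neg k.2]⟩

end Pool.Agent.Lib.MP_293cc0_an.U
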