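import Pool.Agent.Lib.MP_293cc0_an.U.Replay
import Pool.Agent.Lib.MP_293cc0_an.U.Complete

/-!
# MP_293cc0_an, U-regime, module Main (200 lines)

`stage`: `s` trees (`s = card κ`), all with at least two elements, `S.card = K + s`. Phase 1: `exch` for `n₀ = n` (all elements of the trees are `< n`), `St.run` up to the column
`k`, `St.wait` at `l = n + k` with tokens `x i ∈ T i` (any; `T i ⊆ R k i`: monotonicity of runs, small lemma), trees `Option κ`; `St.follow` with `φ = some`, `ρ = none`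
(`T' = fun o => o.elim {l} (R k)`). Result: a state at `n₁ = n + m + 1 ≤ n + 2 s + 1` with trees `T₁ : Option κ → Finset ℕ`, all with at least two elements
(`T i ⊆ (R m i).erase l ⊆ T₁ (some i)`; `l, n + m ∈ T₁ none`), waiting list `(x i, l)`.
Phase 2: choose `y i ∈ T i`, `y i ≠ x i` (`T i` has two elements). `exch` for `T₁` and `n₀ = n₁`, `St.run` up to the column `k'` (trees `R' k' ⊇ T₁`), `St.complete` at `r = n₁ + k'`,
`St.follow` with the `φ`, `ρ` of `St.complete`. Result: all trees of `κ'` have at least two elements: `ρ` has `r` and `n₁ + m'`; another `j'` contains `(R' m' j).erase r ⊇ T₁ j`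
for some `j`. `card κ' = s + 1`; `card S - K`: wait gives `+1` point, the completion `+1` point and `+1` function, all others keep it: `S'.card = K' + (s + 1)`.

`St.cov`: a state with empty waiting list gives a cover of `S.image x` (`Stat` applied to the `σ k`).

`U_main`: start: `S = {0, 1}`, one tree `{0, 1}`, one function (`stat_one` with `t₀ = 1`, `Z = {0}`), `n = 2`; for the tokens `z` of the tree `{0,1}` all elements which are not the token are served by the only function (`a = 0`, `b = 1`). Then `p - 1` stages; `2 + ∑_{s=1}^{p-1} (4 s + 4) ≤ 2 p^2 + 2 p`. For `p = 0` take `S = ∅`.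
-/

set_option autoImplicit false

namespace Pool.Agent.Lib.MP_293cc0_an.U

open Finset

variable {X : Type} [MetricSpace X] [DecidableEq X] {N : ℕ}

omit [DecidableEq X] in
private theorem Run.sub {κ : Type} [DecidableEq κ] {H : ℕ → ℕ → ℝ} {T : κ → Finset ℕ}
    {n₀ : ℕ} {i : ℕ → κ} {z : ℕ → ℕ} {R : ℕ → κ → Finset ℕ} (hR : Run H T n₀ i z R) :
    ∀ a j, T j ⊆ R a j := by
  intro a
  induction a with
  | zero =>
    intro j
    rw [hR.zero]
  | succ a ih =>
    intro j
    rw [hR.succ]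
    by_cases hj : j = i a
    · subst hj
      rw [Function.update_self]
      exact (ih (i a)).trans (Finset.subset_insert _ _)
    · rw [Function.update_of_ne hj]
      exact ih j

private theorem two_card {A : Finset ℕ} {u v : ℕ} (hu : u ∈ A) (hv : v ∈ A) (h : u ≠ v) :
    2 ≤ A.card := Finset.one_lt_card.mpr ⟨u, hu, v, hv, h⟩

theorem stage {C : Comb X N} (hU : C.IsU) {κ : Type} [Fintype κ] [DecidableEq κ] [Nonempty κ]
    {n : ℕ} {S : Finset ℕ} {K : ℕ} {T : κ → Finset ℕ} (h : St C n S ∅ K T)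
    (hT : ∀ j, 2 ≤ (T j).card) (hS : S.card = K + Fintype.card κ)
    (hn : n + 4 * Fintype.card κ + 4 ≤ N) :
    ∃ (κ' : Type) (_ : Fintype κ') (_ : DecidableEq κ') (n' : ℕ) (S' : Finset ℕ) (K' : ℕ)
      (T' : κ' → Finset ℕ), Fintype.card κ' = Fintype.card κ + 1 ∧ St C n' S' ∅ K' T' ∧
      (∀ j, 2 ≤ (T' j).card) ∧ S'.card = K' + Fintype.card κ' ∧
      n' ≤ n + 4 * Fintype.card κ + 4 := by
  have hTn : ∀ j, ∀ u ∈ T j, u < n := fun j u hu => h.2.1 u (h.2.2.1 j hu)
  have hxy : ∀ j, ∃ a ∈ T j, ∃ b ∈ T j, a ≠ b := fun j => Finset.one_lt_card.mp (hT j)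
  choose x hx y hy hxy using hxy
  obtain ⟨i, z, R, k, m, hR, hkm, hm, hlt, hle⟩ := exch (hgt C) T hT n hTn
  obtain ⟨S1, K1, h1, hc1⟩ := h.run hU hR k (by omega)
  have h2 := h1.wait (l := n + k) le_rfl (by omega) x (fun j => Run.sub hR k j (hx j))
  have hnk : n + k ∉ S1 := fun hh => lt_irrefl _ (h1.2.1 _ hh)
  obtain ⟨S2, K2, T1, h3, hc2, hφ1, hl1, hm1⟩ := St.follow hU hR hkm (by omega) hlt hle h2
    (ρ := none) (φ := fun j => some (some j)) rfl
    (by
      intro j j' hj
      have := Option.some_injective _ hj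
      subst this
      exact ⟨fun u hu => hu, by simp⟩)
    (by
      rintro (_ | j) hj
      · exact absurd rfl hj
      · exact ⟨j, rfl⟩)
  rw [Finset.card_insert_of_notMem hnk] at hc2
  have hTT1 : ∀ j, T j ⊆ T1 (some j) := by
    intro j u hu
    refine hφ1 j (some j) rfl (Finset.mem_erase.mpr ⟨?_, Run.sub hR m j hu⟩)
    have := hTn j u hu
    omega
  have hT1 : ∀ j, 2 ≤ (T1 j).card := by
    rintro (_ | j)
    · exact two_card hl1 hm1 (by omega)
    · exact le_trans (hT j) (Finset.card_le_card (hTT1 j))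
  have hTn1 : ∀ j, ∀ u ∈ T1 j, u < n + m + 1 := fun j u hu => h3.2.1 u (h3.2.2.1 j hu)
  obtain ⟨i', z', R', k', m', hR', hkm', hm', hlt', hle'⟩ :=
    exch (hgt C) T1 hT1 (n + m + 1) hTn1
  rw [Fintype.card_option] at hm'
  obtain ⟨S3, K3, h4, hc3⟩ := h3.run hU hR' k' (by omega)
  obtain ⟨κ', _, _, T3, ρ, φ, hcard, h5, hρ, hφ, hs⟩ := St.complete hU h4
    (fun j => ⟨Run.sub hR' k' _ (hTT1 j (hx j)), by have := hTn j _ (hx j); omega⟩)
    (Run.sub hR' k' _ hl1) y
    (fun j => ⟨Run.sub hR' k' _ (hTT1 j (hy j)), by have := hTn j _ (hy j); omega,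
      fun e => hxy j e.symm⟩) (r := n + m + 1 + k') le_rfl (by omega)
  have hnk' : n + m + 1 + k' ∉ S3 := fun hh => lt_irrefl _ (h4.2.1 _ hh)
  obtain ⟨S4, K4, T4, h6, hc4, hφ4, hl4, hm4⟩ := St.follow hU hR' hkm' (by omega) hlt' hle' h5
    hρ hφ hs
  rw [Finset.card_insert_of_notMem hnk'] at hc4
  refine ⟨κ', inferInstance, inferInstance, n + m + 1 + m' + 1, S4, K4, T4, hcard, h6, ?_, ?_, ?_⟩
  · intro j'
    by_cases hj : j' = ρ
    · subst hj
      exact two_card hl4 hm4 (by omega)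
    · obtain ⟨j, hj'⟩ := hs j' hj
      refine le_trans (hT1 j) (Finset.card_le_card ?_)
      intro u hu
      refine hφ4 j j' hj' (Finset.mem_erase.mpr ⟨?_, Run.sub hR' m' j hu⟩)
      have := hTn1 j u hu
      omega
  · rw [hcard]
    omega
  · omega

theorem St.cover {C : Comb X N} {κ : Type} {n : ℕ} {S : Finset ℕ} {K : ℕ} {T : κ → Finset ℕ}
    (h : St C n S ∅ K T) : Cov (S.image C.x) K := by
  obtain ⟨hN, hSn, -, -, ι, _, core, a, b, τ, σ, hcard, hstat, hτ, hpairs, -⟩ := h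
  have h1 : ∀ k, ∃ F : PF X, (∀ p ∈ core k, F.cov (C.x p.1) (C.x p.2)) ∧
      ∀ t, τ k < t → t < N → (σ k t = some true → F.cov (C.x (a k)) (C.x t)) ∧
        (σ k t = some false → F.cov (C.x (b k)) (C.x t)) := by
    intro k
    obtain ⟨f, hf1, hf2⟩ := hstat k (σ k)
    obtain ⟨F, hF⟩ := f.exists_pf
    exact ⟨F, fun p hp => hF _ _ (hf1 p hp), fun t h1 h2 =>
      ⟨fun h3 => hF _ _ ((hf2 t h1 h2).1 h3), fun h3 => hF _ _ ((hf2 t h1 h2).2 h3)⟩⟩
  choose F hF1 hF2 using h1
  have h2 : ∀ u ∈ S, ∀ v ∈ S, u < v → ∃ k, (F k).cov (C.x u) (C.x v) := by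
    intro u hu v hv huv
    rcases hpairs u hu v hv huv with h | ⟨k, h | ⟨hτv, h | h⟩⟩
    · exact absurd h (Finset.notMem_empty _)
    · exact ⟨k, hF1 k _ h⟩
    · refine ⟨k, ?_⟩
      rw [h.2]
      exact (hF2 k v hτv (lt_of_lt_of_le (hSn v hv) hN)).1 h.1
    · refine ⟨k, ?_⟩
      rw [h.2]
      exact (hF2 k v hτv (lt_of_lt_of_le (hSn v hv) hN)).2 h.1
  let e : Fin K ≃ ι := (Fintype.equivFinOfCardEq hcard).symm
  refine ⟨fun j => F (e j), ?_⟩
  intro p hp q hq hpq
  obtain ⟨u, hu, rfl⟩ := Finset.mem_image.mp hp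
  obtain ⟨v, hv, rfl⟩ := Finset.mem_image.mp hq
  rcases lt_trichotomy u v with huv | huv | huv
  · obtain ⟨k, hk⟩ := h2 u hu v hv huv
    exact ⟨e.symm k, by simp only [Equiv.apply_symm_apply]; exact hk⟩
  · rw [huv] at hpq
    exact absurd rfl hpq
  · obtain ⟨k, hk⟩ := h2 v hv u hu huv
    exact ⟨e.symm k, by simp only [Equiv.apply_symm_apply]; exact PF.cov_symm hk⟩

omit [DecidableEq X] in
private theorem St.start {C : Comb X N} (hU : C.IsU) (hN : 2 ≤ N) :
    St C 2 {0, 1} ∅ 1 (fun _ : Unit => ({0, 1} : Finset ℕ)) := by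
  refine ⟨hN, ?_, fun _ => Finset.Subset.refl _, fun i j hij => absurd (Subsingleton.elim i j) hij,
    Unit, inferInstance, fun _ => ({0} : Finset ℕ).image fun u => (u, 1), fun _ => 0,
    fun _ => 1, fun _ => 1, fun _ _ => none, Fintype.card_unit, ?_, fun _ => one_lt_two, ?_, ?_⟩
  · intro u hu
    rcases Finset.mem_insert.mp hu with rfl | hu
    · exact two_pos
    · rw [Finset.mem_singleton.mp hu]
      exact one_lt_two
  · intro _
    refine stat_one hU (by omega) {0} ?_ (Finset.mem_singleton_self 0) ?_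
    · intro u hu
      rw [Finset.mem_singleton.mp hu]
      exact one_pos
    · intro u hu
      rw [Finset.mem_singleton.mp hu]
  · intro u hu v hv huv
    right
    refine ⟨(), Or.inl ?_⟩
    have h1 : u = 0 ∧ v = 1 := by
      simp only [Finset.mem_insert, Finset.mem_singleton] at hu hv
      omega
    rw [h1.1, h1.2]
    exact Finset.mem_image_of_mem _ (Finset.mem_singleton_self 0)
  · intro z hz
    refine ⟨fun _ => (), ?_, ?_⟩
    · intro u hu _
      simpa using hu
    · intro u hu v hv hPu hPv _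
      have h1 := hz ()
      have h2 := hPu ()
      have h3 := hPv ()
      simp only [Finset.mem_insert, Finset.mem_singleton] at hu hv h1
      omega

omit [DecidableEq X] in
private theorem stages {C : Comb X N} (hU : C.IsU) (s : ℕ) (hs : 1 ≤ s)
    (hN : 2 * s ^ 2 + 2 * s ≤ N + 2) :
    ∃ (κ : Type) (_ : Fintype κ) (_ : DecidableEq κ) (n : ℕ) (S : Finset ℕ) (K : ℕ)
      (T : κ → Finset ℕ), Fintype.card κ = s ∧ St C n S ∅ K T ∧ (∀ j, 2 ≤ (T j).card) ∧
      S.card = K + s ∧ n + 2 ≤ 2 * s ^ 2 + 2 * s := by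
  classical
  induction s, hs using Nat.le_induction with
  | base =>
    refine ⟨Unit, inferInstance, inferInstance, 2, {0, 1}, 1, _, Fintype.card_unit,
      St.start hU (by omega), ?_, rfl, by norm_num⟩
    intro _
    exact le_rfl
  | succ s hs ih =>
    have h1 : 2 * (s + 1) ^ 2 + 2 * (s + 1) = 2 * s ^ 2 + 2 * s + (4 * s + 4) := by ring
    rw [h1] at hN ⊢
    obtain ⟨κ, _, _, n, S, K, T, hcard, hSt, hT, hS, hn⟩ := ih (by omega)
    haveI : Nonempty κ := Fintype.card_pos_iff.mp (by omega)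
    obtain ⟨κ', i1, i2, n', S', K', T', hcard', hSt', hT', hS', hn'⟩ :=
      stage hU hSt hT (by rw [hcard]; exact hS) (by rw [hcard]; omega)
    rw [hcard] at hcard' hn'
    rw [hcard'] at hS'
    exact ⟨κ', i1, i2, n', S', K', T', hcard', hSt', hT', hS', by omega⟩

/-- **The U-regime.** -/
theorem U_main {C : Comb X N} (hU : C.IsU) (p : ℕ) (hp : 2 * p ^ 2 + 2 * p ≤ N) : Sav X p := by
  rcases Nat.eq_zero_or_pos p with rfl | hp0
  · refine ⟨∅, 0, rfl, Fin.elim0, ?_⟩
    intro x hx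
    exact absurd hx (Finset.notMem_empty _)
  · obtain ⟨κ, _, _, n, S, K, T, hcard, hSt, hT, hS, hn⟩ := stages hU p hp0 (by omega)
    refine ⟨S.image C.x, K, ?_, hSt.cover⟩
    rw [Finset.card_image_of_injOn, hS]
    intro u hu v hv huv
    have h1 := hSt.2.1 u (Finset.mem_coe.mp hu)
    have h2 := hSt.2.1 v (Finset.mem_coe.mp hv)
    have h3 := hSt.1
    exact C.inj u v (by omega) (by omega) huv

end Pool.Agent.Lib.MP_293cc0_an.U
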