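import Pool.Agent.Lib.MP_293cc0_an.U.One

/-!
# MP_293cc0_an, U-regime, module Attach (200 lines): a new column joins a tree; a new column waits

`St.attach`: tokens `z j ∈ T j`, `z i` is the highest token in the column of `t`. Old data `ι, core, a, b, τ, σ`, and `g` for the tokens `z`.
New index type `Option ι` (`K + 1`): old ones unchanged, except that `σ' (some k) t = some true` if there is `u ∈ S`, `u` not a token, with `g u = k` and
`u = a k`; `some false` if there is such a `u` with `u = b k` (and `u ≠ a k`); otherwise `none` (and `σ' (some k) v = σ k v` for `v ≠ t`).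
New one: `core none = image (·, t) (image z univ)`, `a none = z i`, `b none = t`, `τ none = t` (`stat_one`).
* Pairs `(u, v)` with `v < n`: as before (`v ≠ t` because `v ∈ S`, `v < n ≤ t`). Pairs `(u, t)`: if `u = z j` it is in `core none`; otherwise `u = a (g u)` or
  `u = b (g u)`, and `g` is injective on the elements which are not tokens, so `σ' (some (g u)) t` serves `u`; `τ (g u) < n ≤ t`.
* Tokens `z'` for the new trees. If `z' i ≠ t`, then `z' i ∈ T i`; take the old `g` for `z'` (`some ∘ g`) and send `t` to `none`.
  If `z' i = t`: take the old `g` for `Function.update z' i (z i)`, and send `z i` to `none`.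
  (`u = a (g u) ∨ u = b (g u)`: for `t` it is `b none`, for `z i` it is `a none`.)
* `T j ⊆ insert t S`; disjointness: `t ∉ T j` because `T j ⊆ S` and `∀ u ∈ S, u < n ≤ t`.

`St.wait`: the new column `l` becomes a tree of its own, no new function; the pairs `(z i, l)` are put on the waiting list `W`
(before it was empty). `σ'` as above at the column `l`. Tokens for the new trees: `z' none = l`, so the other elements of `insert l S` are those of `S`,
use the old `g` for `z' ∘ some`.
-/

set_option autoImplicit false

namespace Pool.Agent.Lib.MP_293cc0_an.U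

open Finset

variable {X : Type} [MetricSpace X] {N : ℕ}

/-- The service of the column `t`. -/
private theorem exists_service {ι : Type} {S : Finset ℕ} (a b : ι → ℕ)
    (σ : ι → ℕ → Option Bool) (g : ℕ → ι) (P : ℕ → Prop)
    (h1 : ∀ u ∈ S, P u → u = a (g u) ∨ u = b (g u))
    (h2 : ∀ u ∈ S, ∀ v ∈ S, P u → P v → g u = g v → u = v) (t : ℕ) :
    ∃ σ' : ι → ℕ → Option Bool, (∀ k v, v ≠ t → σ' k v = σ k v) ∧
      ∀ u ∈ S, P u → (σ' (g u) t = some true ∧ u = a (g u)) ∨
        (σ' (g u) t = some false ∧ u = b (g u)) := by
  classical
  refine ⟨fun k v => if v = t then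
    (if ∃ u ∈ S, P u ∧ g u = k ∧ u = a k then some true else some false) else σ k v, ?_, ?_⟩
  · intro k v hv
    simp only [if_neg hv]
  · intro u hu hP
    simp only [if_true]
    by_cases h : ∃ u' ∈ S, P u' ∧ g u' = g u ∧ u' = a (g u)
    · rw [if_pos h]
      obtain ⟨u', hu', hP', hg, ha⟩ := h
      have := h2 u' hu' u hu hP' hP hg
      subst this
      exact Or.inl ⟨rfl, ha⟩
    · rw [if_neg h]
      rcases h1 u hu hP with h3 | h3
      · exact absurd ⟨u, hu, hP, rfl, h3⟩ h
      · exact Or.inr ⟨rfl, h3⟩

theorem St.attach {C : Comb X N} (hU : C.IsU) {κ : Type} [Fintype κ] [DecidableEq κ] {n : ℕ}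
    {S : Finset ℕ} {W : Finset (ℕ × ℕ)} {K : ℕ} {T : κ → Finset ℕ} (h : St C n S W K T)
    {t : ℕ} (hn : n ≤ t) (ht : t < N) (i : κ) (z : κ → ℕ) (hz : ∀ j, z j ∈ T j)
    (htop : ∀ j, C.e (z j) t ≤ C.e (z i) t) :
    St C (t + 1) (insert t S) W (K + 1) (Function.update T i (insert t (T i))) := by
  classical
  obtain ⟨-, hSn, hTS, hdis, ι, _, core, a, b, τ, σ, hcard, hstat, hτ, hpairs, htok⟩ := h
  obtain ⟨g0, hg1, hg2⟩ := htok z hz
  obtain ⟨σ1, hσ1, hσ2⟩ := exists_service (S := S) a b σ g0 (fun u => ∀ i, u ≠ z i)
    hg1 hg2 t
  have htS : t ∉ S := fun h => by have := hSn t h; omega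
  have htT : ∀ j, t ∉ T j := fun j h => htS (hTS j h)
  refine ⟨ht, ?_, ?_, ?_, Option ι, inferInstance,
    fun o => o.elim ((univ.image z).image fun u => (u, t)) core,
    fun o => o.elim (z i) a, fun o => o.elim t b, fun o => o.elim t τ,
    fun o => o.elim (fun _ => none) σ1, ?_, ?_, ?_, ?_, ?_⟩
  · intro u hu
    rcases Finset.mem_insert.mp hu with rfl | hu
    · omega
    · have := hSn u hu; omega
  · intro j
    by_cases hj : j = i
    · subst hj
      rw [Function.update_self]
      exact Finset.insert_subset_insert _ (hTS j)
    · rw [Function.update_of_ne hj]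
      exact (hTS j).trans (Finset.subset_insert _ _)
  · intro j j' hjj
    by_cases hj : j = i
    · subst hj
      rw [Function.update_self, Function.update_of_ne (Ne.symm hjj), Finset.disjoint_insert_left]
      exact ⟨htT j', hdis j j' hjj⟩
    · by_cases hj' : j' = i
      · subst hj'
        rw [Function.update_self, Function.update_of_ne hj, Finset.disjoint_insert_right]
        exact ⟨htT j, hdis j j' hjj⟩
      · rw [Function.update_of_ne hj, Function.update_of_ne hj']
        exact hdis j j' hjj
  · rw [Fintype.card_option, hcard]
  · rintro (_ | k)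
    · refine stat_one hU ht (univ.image z) ?_ (Finset.mem_image_of_mem _ (Finset.mem_univ i)) ?_
      · intro u hu
        obtain ⟨j, -, rfl⟩ := Finset.mem_image.mp hu
        have := hSn _ (hTS j (hz j))
        omega
      · intro u hu
        obtain ⟨j, -, rfl⟩ := Finset.mem_image.mp hu
        exact htop j
    · exact hstat k
  · rintro (_ | k)
    · exact Nat.lt_succ_self t
    · have := hτ k
      show τ k < t + 1
      omega
  · intro u hu v hv huv
    rcases Finset.mem_insert.mp hv with rfl | hv
    · have huS : u ∈ S := by
        rcases Finset.mem_insert.mp hu with rfl | hu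
        · exact absurd huv (lt_irrefl _)
        · exact hu
      right
      by_cases hz' : ∃ j, u = z j
      · obtain ⟨j, rfl⟩ := hz'
        refine ⟨none, Or.inl ?_⟩
        exact Finset.mem_image_of_mem _ (Finset.mem_image_of_mem _ (Finset.mem_univ j))
      · have hP : ∀ j, u ≠ z j := fun j hj => hz' ⟨j, hj⟩
        refine ⟨some (g0 u), Or.inr ⟨?_, hσ2 u huS hP⟩⟩
        have := hτ (g0 u)
        show τ (g0 u) < v
        omega
    · have hvn := hSn v hv
      have huS : u ∈ S := by
        rcases Finset.mem_insert.mp hu with rfl | hu
        · omega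
        · exact hu
      rcases hpairs u huS v hv huv with h | ⟨k, h⟩
      · exact Or.inl h
      · refine Or.inr ⟨some k, ?_⟩
        show (u, v) ∈ core k ∨ (τ k < v ∧ ((σ1 k v = some true ∧ u = a k) ∨
          (σ1 k v = some false ∧ u = b k)))
        rw [hσ1 k v (by omega)]
        exact h
  · intro z' hz'
    by_cases hzi : z' i = t
    · have hz'' : ∀ j, Function.update z' i (z i) j ∈ T j := by
        intro j
        by_cases hj : j = i
        · subst hj
          rw [Function.update_self]
          exact hz j
        · rw [Function.update_of_ne hj]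
          have := hz' j
          rwa [Function.update_of_ne hj] at this
      obtain ⟨g1, hg3, hg4⟩ := htok _ hz''
      have hS' : ∀ u ∈ insert t S, (∀ j, u ≠ z' j) → u ∈ S := by
        intro u hu hP
        rcases Finset.mem_insert.mp hu with rfl | hu
        · exact absurd hzi.symm (hP i)
        · exact hu
      have hP' : ∀ u, (∀ j, u ≠ z' j) → u ≠ z i → ∀ j, u ≠ Function.update z' i (z i) j := by
        intro u hP hu j
        by_cases hj : j = i
        · subst hj
          rw [Function.update_self]
          exact hu
        · rw [Function.update_of_ne hj]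
          exact hP j
      refine ⟨fun u => if u = z i then none else some (g1 u), ?_, ?_⟩
      · intro u hu hP
        by_cases huz : u = z i
        · simp only [if_pos huz]
          exact Or.inl huz
        · simp only [if_neg huz]
          exact hg3 u (hS' u hu hP) (hP' u hP huz)
      · intro u hu v hv hPu hPv hg
        by_cases huz : u = z i
        · by_cases hvz : v = z i
          · rw [huz, hvz]
          · simp only [if_pos huz, if_neg hvz] at hg
            exact absurd hg (by simp)
        · by_cases hvz : v = z i
          · simp only [if_neg huz, if_pos hvz] at hg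
            exact absurd hg (by simp)
          · simp only [if_neg huz, if_neg hvz] at hg
            exact hg4 u (hS' u hu hPu) v (hS' v hv hPv) (hP' u hPu huz) (hP' v hPv hvz)
              (Option.some_injective _ hg)
    · have hz'' : ∀ j, z' j ∈ T j := by
        intro j
        have h5 := hz' j
        by_cases hj : j = i
        · subst hj
          rw [Function.update_self] at h5
          rcases Finset.mem_insert.mp h5 with h6 | h6
          · exact absurd h6 hzi
          · exact h6
        · rwa [Function.update_of_ne hj] at h5
      obtain ⟨g1, hg3, hg4⟩ := htok z' hz''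
      have hS' : ∀ u ∈ insert t S, u ≠ t → u ∈ S := by
        intro u hu hut
        rcases Finset.mem_insert.mp hu with rfl | hu
        · exact absurd rfl hut
        · exact hu
      refine ⟨fun u => if u = t then none else some (g1 u), ?_, ?_⟩
      · intro u hu hP
        by_cases hut : u = t
        · simp only [if_pos hut]
          exact Or.inr hut
        · simp only [if_neg hut]
          exact hg3 u (hS' u hu hut) hP
      · intro u hu v hv hPu hPv hg
        by_cases hut : u = t
        · by_cases hvt : v = t
          · rw [hut, hvt]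
          · simp only [if_pos hut, if_neg hvt] at hg
            exact absurd hg (by simp)
        · by_cases hvt : v = t
          · simp only [if_neg hut, if_pos hvt] at hg
            exact absurd hg (by simp)
          · simp only [if_neg hut, if_neg hvt] at hg
            exact hg4 u (hS' u hu hut) v (hS' v hv hvt) hPu hPv (Option.some_injective _ hg)

theorem St.wait {C : Comb X N} {κ : Type} [Fintype κ] [DecidableEq κ] {n : ℕ}
    {S : Finset ℕ} {K : ℕ} {T : κ → Finset ℕ} (h : St C n S ∅ K T)
    {l : ℕ} (hn : n ≤ l) (hl : l < N) (z : κ → ℕ) (hz : ∀ j, z j ∈ T j) :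
    St C (l + 1) (insert l S) (univ.image fun i => (z i, l)) K
      (fun o : Option κ => o.elim {l} T) := by
  classical
  obtain ⟨-, hSn, hTS, hdis, ι, _, core, a, b, τ, σ, hcard, hstat, hτ, hpairs, htok⟩ := h
  obtain ⟨g0, hg1, hg2⟩ := htok z hz
  obtain ⟨σ1, hσ1, hσ2⟩ := exists_service (S := S) a b σ g0 (fun u => ∀ i, u ≠ z i)
    hg1 hg2 l
  have hlS : l ∉ S := fun h => by have := hSn l h; omega
  have hlT : ∀ j, l ∉ T j := fun j h => hlS (hTS j h)
  refine ⟨hl, ?_, ?_, ?_, ι, inferInstance, core, a, b, τ, σ1, hcard, hstat, ?_, ?_, ?_⟩
  · intro u hu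
    rcases Finset.mem_insert.mp hu with rfl | hu
    · omega
    · have := hSn u hu; omega
  · rintro (_ | j)
    · show ({l} : Finset ℕ) ⊆ insert l S
      intro u hu
      rw [Finset.mem_singleton.mp hu]
      exact Finset.mem_insert_self _ _
    · exact (hTS j).trans (Finset.subset_insert _ _)
  · rintro (_ | j) (_ | j') hjj
    · exact absurd rfl hjj
    · show Disjoint ({l} : Finset ℕ) (T j')
      rw [Finset.disjoint_singleton_left]
      exact hlT j'
    · show Disjoint (T j) ({l} : Finset ℕ)
      rw [Finset.disjoint_singleton_right]
      exact hlT j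
    · exact hdis j j' (fun h => hjj (by rw [h]))
  · intro k
    have := hτ k
    omega
  · intro u hu v hv huv
    rcases Finset.mem_insert.mp hv with rfl | hv
    · have huS : u ∈ S := by
        rcases Finset.mem_insert.mp hu with rfl | hu
        · exact absurd huv (lt_irrefl _)
        · exact hu
      by_cases hz' : ∃ j, u = z j
      · obtain ⟨j, rfl⟩ := hz'
        exact Or.inl (Finset.mem_image_of_mem (fun i => (z i, v)) (Finset.mem_univ j))
      · have hP : ∀ j, u ≠ z j := fun j hj => hz' ⟨j, hj⟩
        refine Or.inr ⟨g0 u, Or.inr ⟨?_, hσ2 u huS hP⟩⟩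
        have := hτ (g0 u)
        omega
    · have hvn := hSn v hv
      have huS : u ∈ S := by
        rcases Finset.mem_insert.mp hu with rfl | hu
        · omega
        · exact hu
      rcases hpairs u huS v hv huv with h | ⟨k, h⟩
      · exact absurd h (Finset.notMem_empty _)
      · refine Or.inr ⟨k, ?_⟩
        rw [hσ1 k v (by omega)]
        exact h
  · intro z' hz'
    obtain ⟨g1, hg3, hg4⟩ := htok (fun j => z' (some j)) (fun j => hz' (some j))
    have h0 : z' none = l := Finset.mem_singleton.mp (hz' none)
    have hS' : ∀ u ∈ insert l S, (∀ o, u ≠ z' o) → u ∈ S := by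
      intro u hu hP
      rcases Finset.mem_insert.mp hu with rfl | hu
      · exact absurd h0.symm (hP none)
      · exact hu
    refine ⟨g1, ?_, ?_⟩
    · intro u hu hP
      exact hg3 u (hS' u hu hP) (fun j => hP (some j))
    · intro u hu v hv hPu hPv hg
      exact hg4 u (hS' u hu hPu) v (hS' v hv hPv) (fun j => hPu (some j))
        (fun j => hPv (some j)) hg

end Pool.Agent.Lib.MP_293cc0_an.U
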