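import Pool.Agent.Lib.MP_293cc0_an.Comb

/-!
# MP_293cc0_an, U-regime: definitions

`Stat C core a b τ`: there is a partial potential which covers the pairs of `core` and which, in every column `t > τ`,
serves (is tight with `t` at) `a` or `b` or nothing, where the choice is free in every column.

`St C n S W K T`: all columns of `S` are `< n`; there are `K` such functions, which cover all pairs of `S`
except those in `W`, and for every choice of one token `z i` in each tree `T i` the other elements of `S`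
can be served by different functions.
-/

set_option autoImplicit false

namespace Pool.Agent.Lib.MP_293cc0_an.U

open Finset

variable {X : Type} [MetricSpace X] {N : ℕ}

/-- A function with a free choice of the service in every column after `τ`. -/
def Stat (C : Comb X N) (core : Finset (ℕ × ℕ)) (a b τ : ℕ) : Prop :=
  ∀ σ : ℕ → Option Bool, ∃ f : IPF C, (∀ p ∈ core, f.cov p.1 p.2) ∧
    ∀ t, τ < t → t < N → (σ t = some true → f.cov a t) ∧ (σ t = some false → f.cov b t)

/-- A state of the game. -/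
def St (C : Comb X N) (n : ℕ) (S : Finset ℕ) (W : Finset (ℕ × ℕ)) (K : ℕ) {κ : Type}
    (T : κ → Finset ℕ) : Prop :=
  n ≤ N ∧ (∀ u ∈ S, u < n) ∧ (∀ i, T i ⊆ S) ∧ (∀ i j, i ≠ j → Disjoint (T i) (T j)) ∧
  ∃ (ι : Type) (_ : Fintype ι) (core : ι → Finset (ℕ × ℕ)) (a b τ : ι → ℕ)
    (σ : ι → ℕ → Option Bool),
    Fintype.card ι = K ∧ (∀ k, Stat C (core k) (a k) (b k) (τ k)) ∧ (∀ k, τ k < n) ∧
    (∀ u ∈ S, ∀ v ∈ S, u < v → (u, v) ∈ W ∨ ∃ k, (u, v) ∈ core k ∨
      (τ k < v ∧ ((σ k v = some true ∧ u = a k) ∨ (σ k v = some false ∧ u = b k)))) ∧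
    ∀ z : κ → ℕ, (∀ i, z i ∈ T i) → ∃ g : ℕ → ι,
      (∀ u ∈ S, (∀ i, u ≠ z i) → u = a (g u) ∨ u = b (g u)) ∧
      ∀ u ∈ S, ∀ v ∈ S, (∀ i, u ≠ z i) → (∀ i, v ≠ z i) → g u = g v → u = v

/-- `A` has two elements of height at most `c`. -/
def Two (h : ℕ → ℝ) (A : Finset ℕ) (c : ℝ) : Prop :=
  ∃ a ∈ A, ∃ b ∈ A, a ≠ b ∧ h a ≤ c ∧ h b ≤ c

/-- The data of a run: column `n₀ + a` joins the tree `i a`, `z a` is the second lowest element of that tree
and at least as high as the second lowest elements of the other trees. -/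
structure Run {κ : Type} [DecidableEq κ] (H : ℕ → ℕ → ℝ) (T : κ → Finset ℕ) (n₀ : ℕ)
    (i : ℕ → κ) (z : ℕ → ℕ) (R : ℕ → κ → Finset ℕ) : Prop where
  zero : R 0 = T
  succ : ∀ a, R (a + 1) = Function.update (R a) (i a) (insert (n₀ + a) (R a (i a)))
  mem : ∀ a, z a ∈ R a (i a)
  two : ∀ a j, Two (H (n₀ + a)) (R a j) (H (n₀ + a) (z a))

/-- heights in the columns of a comb -/
def hgt (C : Comb X N) (v u : ℕ) : ℝ := C.e u v

end Pool.Agent.Lib.MP_293cc0_an.U
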