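import Pool.Agent.Lib.MP_293cc0_an.U.Defs

/-!
# MP_293cc0_an, U-regime, module Exch (200 lines): the exchange lemma

`second`: for one finite set with at least two elements let `a` be an element of minimal height and `z` an element of minimal height of the rest: then
two elements (`a`, `z`) have height `≤ h z`, and an element of height `< h z` is `a`. For a finite nonempty family take the index `i` with the highest `z`
(`Finset.exists_max_image`); `Two` is monotone in the bound.

`exch`: define `R` by recursion: `R 0 = T`, `R (a+1) = update (R a) (i a) (insert (n₀ + a) (R a (i a)))`, where `i a`, `z a` are chosen by `second` for the heights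
`H (n₀ + a)` and the family `R a` (all sets keep at least two elements). Technically: define a sequence of subtypes
`{R : κ → Finset ℕ // ∀ j, 2 ≤ (R j).card}` by `Nat.rec` with `Classical.choose`.
CLAIM: some `m ≤ 2 s` (`s = card κ`) and `k < m` satisfy `H (n₀+m) (z m) ≤ H (n₀+m) (n₀+k)`. Otherwise for all `k < m ≤ 2 s`: `H (n₀+m) (n₀+k) < H (n₀+m) (z m)`; by pigeonhole
(`Finset.exists_lt_card_fiber_of_mul_lt_card_of_maps_to` on `range (2s+1)`) there are `m₁ < m₂ < m₃ ≤ 2 s` with the same `i`; then `n₀+m₁` and `n₀+m₂`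
are different elements of `R m₃ (i m₃)` (`mem_run`: `n₀ + b ∈ R a (i b)` for `b < a`) of height `< h (z m₃)`, contradiction with `second`.
Take `m` minimal (`Nat.find`); then for the same `k` all `a` with `k < a < m` satisfy the strict inequality.
-/

set_option autoImplicit false

namespace Pool.Agent.Lib.MP_293cc0_an.U

open Finset

theorem second {κ : Type} [Fintype κ] [Nonempty κ] (h : ℕ → ℝ) (R : κ → Finset ℕ)
    (hR : ∀ j, 2 ≤ (R j).card) :
    ∃ i, ∃ z ∈ R i, (∀ j, Two h (R j) (h z)) ∧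
      ∀ a ∈ R i, ∀ b ∈ R i, h a < h z → h b < h z → a = b := by
  classical
  have h1 : ∀ j, ∃ a ∈ R j, ∃ z ∈ R j, a ≠ z ∧ h a ≤ h z ∧ ∀ b ∈ R j, h b < h z → b = a := by
    intro j
    have hne : (R j).Nonempty := Finset.card_pos.mp (by have := hR j; omega)
    obtain ⟨a, ha, hmin⟩ := Finset.exists_min_image (R j) h hne
    have hne2 : ((R j).erase a).Nonempty := by
      apply Finset.card_pos.mp
      rw [Finset.card_erase_of_mem ha]
      have := hR j
      omega
    obtain ⟨z, hz, hzmin⟩ := Finset.exists_min_image ((R j).erase a) h hne2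
    have hz' := Finset.mem_erase.mp hz
    refine ⟨a, ha, z, hz'.2, fun e => hz'.1 e.symm, hmin z hz'.2, ?_⟩
    intro b hb hlt
    by_contra hba
    exact absurd (hzmin b (Finset.mem_erase.mpr ⟨hba, hb⟩)) (not_le.mpr hlt)
  choose a ha z hz haz hle huniq using h1
  obtain ⟨i, -, hi⟩ := Finset.exists_max_image (Finset.univ : Finset κ) (fun j => h (z j))
    Finset.univ_nonempty
  refine ⟨i, z i, hz i, ?_, ?_⟩
  · intro j
    have h2 : h (z j) ≤ h (z i) := hi j (Finset.mem_univ j)
    exact ⟨a j, ha j, z j, hz j, haz j, le_trans (hle j) h2, h2⟩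
  · intro b hb c hc hb2 hc2
    rw [huniq i b hb hb2, huniq i c hc hc2]

theorem exch {κ : Type} [Fintype κ] [DecidableEq κ] [Nonempty κ] (H : ℕ → ℕ → ℝ)
    (T : κ → Finset ℕ) (hT : ∀ j, 2 ≤ (T j).card) (n₀ : ℕ) (hn : ∀ j, ∀ u ∈ T j, u < n₀) :
    ∃ (i : ℕ → κ) (z : ℕ → ℕ) (R : ℕ → κ → Finset ℕ) (k m : ℕ), Run H T n₀ i z R ∧
      k < m ∧ m ≤ 2 * Fintype.card κ ∧
      (∀ a, k < a → a < m → H (n₀ + a) (n₀ + k) < H (n₀ + a) (z a)) ∧
      H (n₀ + m) (z m) ≤ H (n₀ + m) (n₀ + k) := by
  have hsec : ∀ (a : ℕ) (R : {R : κ → Finset ℕ // ∀ j, 2 ≤ (R j).card}),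
      ∃ i, ∃ z ∈ R.1 i, (∀ j, Two (H (n₀ + a)) (R.1 j) (H (n₀ + a) z)) ∧
      ∀ b ∈ R.1 i, ∀ c ∈ R.1 i, H (n₀ + a) b < H (n₀ + a) z → H (n₀ + a) c < H (n₀ + a) z →
        b = c := fun a R => second (H (n₀ + a)) R.1 R.2
  choose I Z hZ1 hZ2 hZ3 using hsec
  have hstep : ∀ (a : ℕ) (R : {R : κ → Finset ℕ // ∀ j, 2 ≤ (R j).card}),
      ∀ j, 2 ≤ (Function.update R.1 (I a R) (insert (n₀ + a) (R.1 (I a R))) j).card := by
    intro a R j
    by_cases hj : j = I a R
    · subst hj
      rw [Function.update_self]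
      exact le_trans (R.2 _) (Finset.card_le_card (Finset.subset_insert _ _))
    · rw [Function.update_of_ne hj]
      exact R.2 j
  let Rs : ℕ → {R : κ → Finset ℕ // ∀ j, 2 ≤ (R j).card} := fun n =>
    Nat.rec ⟨T, hT⟩ (fun a R => ⟨_, hstep a R⟩) n
  have hRs : ∀ a, (Rs (a + 1)).1 = Function.update (Rs a).1 (I a (Rs a))
      (insert (n₀ + a) ((Rs a).1 (I a (Rs a)))) := fun a => rfl
  have hmem : ∀ a b, b < a → n₀ + b ∈ (Rs a).1 (I b (Rs b)) := by
    intro a
    induction a with
    | zero => intro b hb; omega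
    | succ a ih =>
      intro b hb
      rw [hRs]
      by_cases hba : b = a
      · subst hba
        rw [Function.update_self]
        exact Finset.mem_insert_self _ _
      · have h1 := ih b (by omega)
        by_cases hj : I b (Rs b) = I a (Rs a)
        · rw [hj, Function.update_self]
          rw [hj] at h1
          exact Finset.mem_insert_of_mem h1
        · rw [Function.update_of_ne hj]
          exact h1
  have hclaim : ∃ m, m ≤ 2 * Fintype.card κ ∧
      ∃ k, k < m ∧ H (n₀ + m) (Z m (Rs m)) ≤ H (n₀ + m) (n₀ + k) := by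
    by_contra hcon
    have hlt : ∀ m, m ≤ 2 * Fintype.card κ → ∀ k, k < m →
        H (n₀ + m) (n₀ + k) < H (n₀ + m) (Z m (Rs m)) := by
      intro m hm k hk
      by_contra h1
      exact hcon ⟨m, hm, k, hk, not_lt.mp h1⟩
    obtain ⟨y, -, hy⟩ := Finset.exists_lt_card_fiber_of_mul_lt_card_of_maps_to
      (s := Finset.range (2 * Fintype.card κ + 1)) (t := (Finset.univ : Finset κ))
      (f := fun m => I m (Rs m)) (n := 2) (fun _ _ => Finset.mem_univ _)
      (by rw [Finset.card_range, Finset.card_univ]; omega)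
    set F := (Finset.range (2 * Fintype.card κ + 1)).filter (fun m => I m (Rs m) = y) with hF
    have hFne : F.Nonempty := Finset.card_pos.mp (by omega)
    have hm3 := Finset.max'_mem F hFne
    set m3 := F.max' hFne with hm3def
    have h2 : 1 < (F.erase m3).card := by
      rw [Finset.card_erase_of_mem hm3]
      omega
    obtain ⟨m1, hm1, m2, hm2, h12⟩ := Finset.one_lt_card.mp h2
    have key : ∀ m' ∈ F.erase m3, m' < m3 ∧ I m' (Rs m') = y := by
      intro m' hm'
      obtain ⟨h3, h4⟩ := Finset.mem_erase.mp hm'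
      exact ⟨lt_of_le_of_ne (Finset.le_max' F m' h4) h3, (Finset.mem_filter.mp h4).2⟩
    have hm3' := Finset.mem_filter.mp hm3
    have hm3le : m3 ≤ 2 * Fintype.card κ := by
      have := Finset.mem_range.mp hm3'.1
      omega
    obtain ⟨ha1, hb1⟩ := key m1 hm1
    obtain ⟨ha2, hb2⟩ := key m2 hm2
    have e1 := hmem m3 m1 ha1
    have e2 := hmem m3 m2 ha2
    rw [hb1, ← hm3'.2] at e1
    rw [hb2, ← hm3'.2] at e2
    have h5 := hZ3 m3 (Rs m3) _ e1 _ e2 (hlt m3 hm3le m1 ha1) (hlt m3 hm3le m2 ha2)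
    omega
  classical
  have hfind := Nat.find_spec hclaim
  have hmin := fun a (ha : a < Nat.find hclaim) => Nat.find_min hclaim ha
  obtain ⟨hm, k, hk, hle⟩ := hfind
  refine ⟨fun a => I a (Rs a), fun a => Z a (Rs a), fun a => (Rs a).1, k, Nat.find hclaim,
    ⟨rfl, hRs, fun a => hZ1 a (Rs a), fun a j => hZ2 a (Rs a) j⟩, hk, hm, ?_, hle⟩
  intro a hka ham
  by_contra hcon
  exact hmin a ham ⟨by omega, k, hka, not_lt.mp hcon⟩

end Pool.Agent.Lib.MP_293cc0_an.U
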