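import Pool.Agent.Lib.MP_293cc0_an.U.Defs

/-!
# MP_293cc0_an, U-regime, module One (120 lines): a star

`t₀` is joined to the older points `Z`, `z` is the highest element of `Z` in the column of `t₀`; afterwards the function can serve
`z` or `t₀` in every column.

Given `σ`, let `A = {t | t₀ < t < N, σ t = some true}` (these serve `z`), `B = {t | t₀ < t < N, σ t = some false}` (these serve `t₀`).
`D = {t₀} ∪ A ∪ Z ∪ B`, side `true` on `t₀` and `A` (that is: `s i = decide (i = t₀ ∨ (t₀ < i ∧ σ i = some true))`), side `false` on `Z` and `B`.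
Write `d i j = dist (x i) (x j)`. Potential: `p t₀ = 0`, `p u = d u t₀` for `u ∈ Z` (`u < t₀`), `p t = d z t - d z t₀` for `t ∈ A`,
`p t = d t₀ t` for `t ∈ B`. So: `p i = if i < t₀ then d i t₀ else if i = t₀ then 0 else if σ i = some true then d z i - d z t₀ else d t₀ i`.
Feasibility (`i` on side `true`, `j` on side `false`):
* `t₀`, `u ∈ Z`: equality. `t₀`, `t ∈ B`: equality.
* `t ∈ A`, `u ∈ Z`: `d z t - d z t₀ + d u t₀ ≤ d t u`: equality for `u = z`; otherwise `C.key t₀ u z t` (`e t₀ u ≤ e t₀ z` by `htop` and `C.symm`):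
  `d t₀ u + d z t ≤ d t₀ z + d u t`.
* `t ∈ A`, `t' ∈ B`, `t < t'`: `d z t - d z t₀ + d t₀ t' ≤ d t t'`: `C.key z t t₀ t'` with `e z t ≤ e z t₀` (that is `hU z t₀ t`, `t + 1 ≤ t' < N`):
  `d z t + d t₀ t' ≤ d z t₀ + d t t'`.
* `t ∈ A`, `t' ∈ B`, `t' < t`: `C.key t₀ t' z t` with `e t₀ t' ≤ e t₀ z` (`hU t₀ z t'`, `C.symm`): `d t₀ t' + d z t ≤ d t₀ z + d t' t`.
Every point of `D` is tight: `u ∈ Z` and `B` with `t₀`, `A` with `z`, `t₀` with `z`. Tight pairs: `(u, t₀)`, `(z, t)` for `t ∈ A`, `(t₀, t)` for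
`t ∈ B`.
-/

set_option autoImplicit false

namespace Pool.Agent.Lib.MP_293cc0_an.U

open Finset

variable {X : Type} [MetricSpace X] {N : ℕ}

theorem stat_one {C : Comb X N} (hU : C.IsU) {t₀ : ℕ} (ht : t₀ < N) (Z : Finset ℕ)
    (hZ : ∀ u ∈ Z, u < t₀) {z : ℕ} (hz : z ∈ Z) (htop : ∀ u ∈ Z, C.e u t₀ ≤ C.e z t₀) :
    Stat C (Z.image fun u => (u, t₀)) z t₀ t₀ := by
  classical
  intro σ
  have hzt : z < t₀ := hZ z hz
  -- the side and the potential
  obtain ⟨s, hs⟩ : ∃ s : ℕ → Bool, s = fun i => decide (i = t₀ ∨ (t₀ < i ∧ σ i = some true)) :=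
    ⟨_, rfl⟩
  obtain ⟨p, hp⟩ : ∃ p : ℕ → ℝ, p = fun i => if i < t₀ then dist (C.x i) (C.x t₀) else
      if i = t₀ then 0 else if σ i = some true then dist (C.x z) (C.x i) - dist (C.x z) (C.x t₀)
      else dist (C.x t₀) (C.x i) := ⟨_, rfl⟩
  have sT : s t₀ = true := by rw [hs]; simp
  have sA : ∀ t, t₀ < t → σ t = some true → s t = true := by
    intro t h1 h2
    rw [hs]
    simp [h1, h2]
  have sB : ∀ t, t₀ < t → σ t = some false → s t = false := by
    intro t h1 h2
    rw [hs]
    simp [h2, h1.ne']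
  have sZ : ∀ u, u < t₀ → s u = false := by
    intro u h1
    rw [hs]
    simp [h1.ne, h1.not_gt]
  have pT : p t₀ = 0 := by rw [hp]; simp
  have pA : ∀ t, t₀ < t → σ t = some true →
      p t = dist (C.x z) (C.x t) - dist (C.x z) (C.x t₀) := by
    intro t h1 h2
    rw [hp]
    simp [h1.not_gt, h1.ne', h2]
  have pB : ∀ t, t₀ < t → σ t = some false → p t = dist (C.x t₀) (C.x t) := by
    intro t h1 h2
    rw [hp]
    simp [h1.not_gt, h1.ne', h2]
  have pZ : ∀ u, u < t₀ → p u = dist (C.x u) (C.x t₀) := by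
    intro u h1
    rw [hp]
    simp [h1]
  clear hs hp
  obtain ⟨D, hD⟩ : ∃ D : Finset ℕ, ∀ i, i ∈ D ↔ i ∈ Z ∨ i = t₀ ∨
      (t₀ < i ∧ i < N ∧ (σ i = some true ∨ σ i = some false)) := by
    refine ⟨Z ∪ (Finset.range N).filter fun i => i = t₀ ∨
      (t₀ < i ∧ (σ i = some true ∨ σ i = some false)), fun i => ?_⟩
    rw [Finset.mem_union, Finset.mem_filter, Finset.mem_range]
    constructor
    · rintro (h | ⟨h1, h2 | ⟨h2, h3⟩⟩)
      · exact Or.inl h
      · exact Or.inr (Or.inl h2)
      · exact Or.inr (Or.inr ⟨h2, h1, h3⟩)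
    · rintro (h | h | ⟨h1, h2, h3⟩)
      · exact Or.inl h
      · exact Or.inr ⟨h ▸ ht, Or.inl h⟩
      · exact Or.inr ⟨h2, Or.inr ⟨h1, h3⟩⟩
  have hTD : t₀ ∈ D := (hD _).2 (Or.inr (Or.inl rfl))
  have hZD : ∀ u ∈ Z, u ∈ D := fun u hu => (hD _).2 (Or.inl hu)
  -- the equalities
  have eZ : ∀ u, u < t₀ → p u + p t₀ = dist (C.x u) (C.x t₀) := by
    intro u hu
    rw [pZ u hu, pT, add_zero]
  have eA : ∀ t, t₀ < t → σ t = some true → p z + p t = dist (C.x z) (C.x t) := by
    intro t h1 h2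
    rw [pZ z hzt, pA t h1 h2]
    ring
  have eB : ∀ t, t₀ < t → σ t = some false → p t₀ + p t = dist (C.x t₀) (C.x t) := by
    intro t h1 h2
    rw [pT, pB t h1 h2, zero_add]
  refine ⟨⟨D, s, p, ?_, ?_, ?_⟩, ?_, ?_⟩
  · intro i hi
    rcases (hD i).1 hi with h | h | ⟨h1, h2, h3⟩
    · exact lt_trans (hZ i h) ht
    · exact h ▸ ht
    · exact h2
  · -- feasibility
    intro i hi j hj hsi hsj
    rcases (hD i).1 hi with h | h | ⟨h1, h2, h3⟩
    · rw [sZ i (hZ i h)] at hsi
      exact absurd hsi (by simp)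
    · subst h
      rcases (hD j).1 hj with k | k | ⟨k1, k2, k3⟩
      · rw [add_comm, dist_comm]
        exact (eZ j (hZ j k)).le
      · subst k
        rw [sT] at hsj
        exact absurd hsj (by simp)
      · rcases k3 with k3 | k3
        · rw [sA j k1 k3] at hsj
          exact absurd hsj (by simp)
        · exact (eB j k1 k3).le
    · rcases h3 with h3 | h3
      · rcases (hD j).1 hj with k | k | ⟨k1, k2, k3⟩
        · -- `i ∈ A`, `j ∈ Z`
          have hjt := hZ j k
          by_cases hjz : j = z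
          · subst hjz
            rw [add_comm, dist_comm]
            exact (eA i h1 h3).le
          · have hk := C.key t₀ j z i h1 (lt_trans hjt h1) (lt_trans hzt h1) h2 hjt.ne'
              hzt.ne' hjz (by
                rw [C.symm t₀ j, C.symm t₀ z]
                exact htop j k)
            rw [pA i h1 h3, pZ j hjt]
            rw [dist_comm (C.x t₀) (C.x j), dist_comm (C.x t₀) (C.x z)] at hk
            rw [dist_comm (C.x i) (C.x j)]
            linarith
        · subst k
          rw [sT] at hsj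
          exact absurd hsj (by simp)
        · rcases k3 with k3 | k3
          · rw [sA j k1 k3] at hsj
            exact absurd hsj (by simp)
          · rw [pA i h1 h3, pB j k1 k3]
            rcases lt_trichotomy i j with hij | hij | hij
            · have hk := C.key z i t₀ j (lt_trans hzt k1) hij k1 k2 (lt_trans hzt h1).ne
                hzt.ne h1.ne' (hU z t₀ i (lt_trans hzt h1) h1 (by omega) hzt.ne)
              linarith
            · subst hij
              rw [h3] at k3
              simp at k3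
            · have hk := C.key t₀ j z i h1 hij (lt_trans hzt h1) h2 k1.ne hzt.ne'
                (lt_trans hzt k1).ne' (hU t₀ z j k1 (lt_trans hzt k1) (by omega) hzt.ne')
              rw [dist_comm (C.x t₀) (C.x z), dist_comm (C.x j) (C.x i)] at hk
              linarith
      · rw [sB i h1 h3] at hsi
        exact absurd hsi (by simp)
  · -- tightness
    intro i hi
    rcases (hD i).1 hi with h | h | ⟨h1, h2, h3⟩
    · refine ⟨t₀, hTD, ?_, eZ i (hZ i h)⟩
      rw [sZ i (hZ i h), sT]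
      simp
    · subst h
      refine ⟨z, hZD z hz, ?_, ?_⟩
      · rw [sZ z hzt, sT]
        simp
      · rw [add_comm, dist_comm]
        exact eZ z hzt
    · rcases h3 with h3 | h3
      · refine ⟨z, hZD z hz, ?_, ?_⟩
        · rw [sZ z hzt, sA i h1 h3]
          simp
        · rw [add_comm, dist_comm]
          exact eA i h1 h3
      · refine ⟨t₀, hTD, ?_, ?_⟩
        · rw [sT, sB i h1 h3]
          simp
        · rw [add_comm, dist_comm]
          exact eB i h1 h3
  · intro q hq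
    obtain ⟨u, hu, rfl⟩ := Finset.mem_image.1 hq
    refine ⟨hZD u hu, hTD, ?_, eZ u (hZ u hu)⟩
    change s u ≠ s t₀
    rw [sZ u (hZ u hu), sT]
    simp
  · intro t h1 h2
    refine ⟨fun h3 => ?_, fun h3 => ?_⟩
    · refine ⟨hZD z hz, (hD t).2 (Or.inr (Or.inr ⟨h1, h2, Or.inl h3⟩)), ?_, eA t h1 h3⟩
      change s z ≠ s t
      rw [sZ z hzt, sA t h1 h3]
      simp
    · refine ⟨hTD, (hD t).2 (Or.inr (Or.inr ⟨h1, h2, Or.inr h3⟩)), ?_, eB t h1 h3⟩
      change s t₀ ≠ s t
      rw [sT, sB t h1 h3]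
      simp

end Pool.Agent.Lib.MP_293cc0_an.U
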