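import Pool.Agent.Lib.MP_293cc0_an.U.Attach
import Pool.Agent.Lib.MP_293cc0_an.U.Exch

/-!
# MP_293cc0_an, U-regime, module Replay (200 lines)

`St.run`: `a` columns of a run are played with `St.attach`. Induction on `a`; the tokens at the column `n₀ + a`: `z a` in the tree `i a`, and in every other tree `j` one of the two
elements given by `Run.two`.

`St.follow`: from the column `k` on the point `n₀ + k` is a tree of its own (index `ρ`). `T'` is a state whose trees contain the trees of the run: `φ j = some j'`
means that the tree `j` is contained in the tree `j' ≠ ρ`; `φ j = none` means that the tree `j` was closed; every tree `j' ≠ ρ` contains a tree of the run.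
Claim for `a` with `k < a ≤ m`, by induction: there is a state at the column `n₀ + a` (`St C (n₀ + a) …`) with trees `T''` with
`∀ j j', φ j = some j' → (R a j).erase (n₀+k) ⊆ T'' j'`, `T'' ρ = {n₀ + k}`, same `card S - K`.
Start `a = k + 1`: `R (k+1) j ⊆ insert (n₀+k) (R k j)`. Step `a → a + 1` (`k < a < m`): if `φ (i a) = none`: no move (a state at `n` is a state at `n' ≥ n`,
`n' ≤ N`; prove this small lemma `St.mono`). If `φ (i a) = some j₀`: `St.attach` at the column `n₀ + a` with the tree `j₀`; tokens: `z a` for `j₀` (`z a ≠ n₀+k`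
because of the strict inequality of the heights), `n₀+k` for `ρ` (lower than `z a`), and for another `j'` choose `j` with `φ j = some j'` and one of the two elements of
`R a j` of height at most that of `z a` which is different from `n₀ + k`. Last step: the column `n₀ + m` is attached to `ρ` with the token `n₀+k` (top), the other
tokens as before (two elements of `R m j` of height at most that of `z m`, hence at most that of `n₀ + k`).
-/

set_option autoImplicit false

namespace Pool.Agent.Lib.MP_293cc0_an.U

open Finset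

variable {X : Type} [MetricSpace X] {N : ℕ}

theorem St.mono {C : Comb X N} {κ : Type} {n n' : ℕ} {S : Finset ℕ} {W : Finset (ℕ × ℕ)}
    {K : ℕ} {T : κ → Finset ℕ} (h : St C n S W K T) (hn : n ≤ n') (hN : n' ≤ N) :
    St C n' S W K T := by
  obtain ⟨_, h1, h2, h3, ι, hι, core, a, b, τ, σ, hK, hst, hτ, hcov, hg⟩ := h
  exact ⟨hN, fun u hu => lt_of_lt_of_le (h1 u hu) hn, h2, h3, ι, hι, core, a, b, τ, σ, hK, hst,
    fun k => lt_of_lt_of_le (hτ k) hn, hcov, hg⟩

/-- One of two different elements is different from `x`. -/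
theorem Two.exists_ne {h : ℕ → ℝ} {A : Finset ℕ} {c : ℝ} (H : Two h A c) (x : ℕ) :
    ∃ y ∈ A, y ≠ x ∧ h y ≤ c := by
  obtain ⟨a, ha, b, hb, hab, h1, h2⟩ := H
  by_cases hx : a = x
  · exact ⟨b, hb, fun e => hab (hx.trans e.symm), h2⟩
  · exact ⟨a, ha, hx, h1⟩

/-- `St.attach` with the size of the new set. -/
theorem St.attach_card {C : Comb X N} (hU : C.IsU) {κ : Type} [Fintype κ] [DecidableEq κ] {n : ℕ}
    {S : Finset ℕ} {W : Finset (ℕ × ℕ)} {K : ℕ} {T : κ → Finset ℕ} (h : St C n S W K T)
    {t : ℕ} (hn : n ≤ t) (ht : t < N) (i : κ) (z : κ → ℕ) (hz : ∀ j, z j ∈ T j)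
    (htop : ∀ j, C.e (z j) t ≤ C.e (z i) t) :
    ∃ S' : Finset ℕ, S'.card = S.card + 1 ∧
      St C (t + 1) S' W (K + 1) (Function.update T i (insert t (T i))) := by
  refine ⟨insert t S, ?_, St.attach hU h hn ht i z hz htop⟩
  apply Finset.card_insert_of_notMem
  intro hmem
  exact absurd (lt_of_lt_of_le (h.2.1 t hmem) hn) (lt_irrefl t)

theorem St.run {C : Comb X N} (hU : C.IsU) {κ : Type} [Fintype κ] [DecidableEq κ] {n₀ : ℕ}
    {S : Finset ℕ} {W : Finset (ℕ × ℕ)} {K : ℕ} {T : κ → Finset ℕ} (h : St C n₀ S W K T)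
    {i : ℕ → κ} {z : ℕ → ℕ} {R : ℕ → κ → Finset ℕ} (hR : Run (hgt C) T n₀ i z R)
    (a : ℕ) (ha : n₀ + a ≤ N) :
    ∃ (S' : Finset ℕ) (K' : ℕ), St C (n₀ + a) S' W K' (R a) ∧ S'.card + K = S.card + K' := by
  induction a with
  | zero =>
    refine ⟨S, K, ?_, rfl⟩
    rw [hR.zero]
    exact h
  | succ a ih =>
    obtain ⟨S₁, K₁, h₁, hc⟩ := ih (by omega)
    have hex : ∀ j, ∃ y ∈ R a j, C.e y (n₀ + a) ≤ C.e (z a) (n₀ + a) := by
      intro j
      obtain ⟨y, hy, _, hle⟩ := (hR.two a j).exists_ne 0
      exact ⟨y, hy, hle⟩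
    choose y hy hyle using hex
    obtain ⟨S₂, hS₂, h₂⟩ := St.attach_card hU h₁ (le_refl (n₀ + a)) (by omega) (i a)
      (Function.update y (i a) (z a))
      (by
        intro j
        by_cases hj : j = i a
        · subst hj
          rw [Function.update_self]
          exact hR.mem a
        · rw [Function.update_of_ne hj]
          exact hy j)
      (by
        intro j
        rw [Function.update_self]
        by_cases hj : j = i a
        · subst hj
          rw [Function.update_self]
        · rw [Function.update_of_ne hj]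
          exact hyle j)
    refine ⟨S₂, K₁ + 1, ?_, by omega⟩
    rw [hR.succ a]
    exact h₂

theorem St.follow {C : Comb X N} (hU : C.IsU) {κ κ' : Type} [Fintype κ] [DecidableEq κ]
    [Fintype κ'] [DecidableEq κ'] {n₀ : ℕ} {T : κ → Finset ℕ}
    {i : ℕ → κ} {z : ℕ → ℕ} {R : ℕ → κ → Finset ℕ} (hR : Run (hgt C) T n₀ i z R)
    {k m : ℕ} (hkm : k < m) (hm : n₀ + m < N)
    (hlt : ∀ a, k < a → a < m → hgt C (n₀ + a) (n₀ + k) < hgt C (n₀ + a) (z a))
    (hle : hgt C (n₀ + m) (z m) ≤ hgt C (n₀ + m) (n₀ + k))
    {S : Finset ℕ} {W : Finset (ℕ × ℕ)} {K : ℕ} {T' : κ' → Finset ℕ}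
    (h : St C (n₀ + k + 1) S W K T') {ρ : κ'} {φ : κ → Option κ'} (hρ : T' ρ = {n₀ + k})
    (hφ : ∀ j j', φ j = some j' → R k j ⊆ T' j' ∧ j' ≠ ρ)
    (hs : ∀ j', j' ≠ ρ → ∃ j, φ j = some j') :
    ∃ (S' : Finset ℕ) (K' : ℕ) (T'' : κ' → Finset ℕ), St C (n₀ + m + 1) S' W K' T'' ∧
      S'.card + K = S.card + K' ∧
      (∀ j j', φ j = some j' → (R m j).erase (n₀ + k) ⊆ T'' j') ∧
      n₀ + k ∈ T'' ρ ∧ n₀ + m ∈ T'' ρ := by
  have hne : ∀ j j', φ j = some j' → j' ≠ ρ := fun j j' e => (hφ j j' e).2
  -- the state at the column `n₀ + a`, `k < a ≤ m`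
  have key : ∀ a, k + 1 ≤ a → a ≤ m → ∃ (S' : Finset ℕ) (K' : ℕ) (T'' : κ' → Finset ℕ),
      St C (n₀ + a) S' W K' T'' ∧ S'.card + K = S.card + K' ∧
      (∀ j j', φ j = some j' → (R a j).erase (n₀ + k) ⊆ T'' j') ∧ T'' ρ = {n₀ + k} := by
    intro a hka
    induction a, hka using Nat.le_induction with
    | base =>
      intro _
      refine ⟨S, K, T', h, rfl, ?_, hρ⟩
      intro j j' hj u hu
      obtain ⟨hu1, hu2⟩ := Finset.mem_erase.mp hu
      apply (hφ j j' hj).1
      rw [hR.succ k] at hu2
      by_cases hji : j = i k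
      · subst hji
        rw [Function.update_self] at hu2
        rcases Finset.mem_insert.mp hu2 with h3 | h3
        · exact absurd h3 hu1
        · exact h3
      · rw [Function.update_of_ne hji] at hu2
        exact hu2
    | succ a hka ih =>
      intro ham
      obtain ⟨S₁, K₁, T₁, h₁, hc, hsub, hρ₁⟩ := ih (by omega)
      cases hφa : φ (i a) with
      | none =>
        refine ⟨S₁, K₁, T₁, St.mono h₁ (by omega) (by omega), hc, ?_, hρ₁⟩
        intro j j' hj
        have hji : j ≠ i a := by
          intro e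
          rw [e, hφa] at hj
          cases hj
        rw [hR.succ a, Function.update_of_ne hji]
        exact hsub j j' hj
      | some j₀ =>
        have hj₀ : j₀ ≠ ρ := hne _ _ hφa
        have hza : z a ≠ n₀ + k := by
          intro e
          have h4 := hlt a (by omega) (by omega)
          rw [e] at h4
          exact lt_irrefl _ h4
        have hzmem : z a ∈ T₁ j₀ :=
          hsub _ _ hφa (Finset.mem_erase.mpr ⟨hza, hR.mem a⟩)
        have hex : ∀ j', ∃ y ∈ T₁ j', C.e y (n₀ + a) ≤ C.e (z a) (n₀ + a) := by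
          intro j'
          by_cases hj' : j' = ρ
          · refine ⟨n₀ + k, ?_, le_of_lt (hlt a (by omega) (by omega))⟩
            rw [hj', hρ₁]
            exact Finset.mem_singleton_self _
          · obtain ⟨j, hj⟩ := hs j' hj'
            obtain ⟨y, hy, hyne, hyle⟩ := (hR.two a j).exists_ne (n₀ + k)
            exact ⟨y, hsub j j' hj (Finset.mem_erase.mpr ⟨hyne, hy⟩), hyle⟩
        choose y hy hyle using hex
        obtain ⟨S₂, hS₂, h₂⟩ := St.attach_card hU h₁ (le_refl (n₀ + a)) (by omega) j₀
          (Function.update y j₀ (z a))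
          (by
            intro j
            by_cases hj : j = j₀
            · subst hj
              rw [Function.update_self]
              exact hzmem
            · rw [Function.update_of_ne hj]
              exact hy j)
          (by
            intro j
            rw [Function.update_self]
            by_cases hj : j = j₀
            · subst hj
              rw [Function.update_self]
            · rw [Function.update_of_ne hj]
              exact hyle j)
        refine ⟨S₂, K₁ + 1, _, h₂, by omega, ?_, ?_⟩
        · intro j j' hj u hu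
          obtain ⟨hu1, hu2⟩ := Finset.mem_erase.mp hu
          rw [hR.succ a] at hu2
          by_cases hji : j = i a
          · subst hji
            rw [Function.update_self] at hu2
            have hjj : j₀ = j' := by
              rw [hφa] at hj
              exact Option.some.inj hj
            subst hjj
            rw [Function.update_self]
            rcases Finset.mem_insert.mp hu2 with h3 | h3
            · rw [h3]
              exact Finset.mem_insert_self _ _
            · exact Finset.mem_insert_of_mem (hsub _ _ hφa (Finset.mem_erase.mpr ⟨hu1, h3⟩))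
          · rw [Function.update_of_ne hji] at hu2
            have h5 : u ∈ T₁ j' := hsub j j' hj (Finset.mem_erase.mpr ⟨hu1, hu2⟩)
            by_cases hjj : j' = j₀
            · subst hjj
              rw [Function.update_self]
              exact Finset.mem_insert_of_mem h5
            · rw [Function.update_of_ne hjj]
              exact h5
        · rw [Function.update_of_ne (Ne.symm hj₀)]
          exact hρ₁
  obtain ⟨S₁, K₁, T₁, h₁, hc, hsub, hρ₁⟩ := key m hkm (le_refl m)
  have hex : ∀ j', ∃ y ∈ T₁ j', C.e y (n₀ + m) ≤ C.e (n₀ + k) (n₀ + m) := by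
    intro j'
    by_cases hj' : j' = ρ
    · refine ⟨n₀ + k, ?_, le_refl _⟩
      rw [hj', hρ₁]
      exact Finset.mem_singleton_self _
    · obtain ⟨j, hj⟩ := hs j' hj'
      obtain ⟨y, hy, hyne, hyle⟩ := (hR.two m j).exists_ne (n₀ + k)
      exact ⟨y, hsub j j' hj (Finset.mem_erase.mpr ⟨hyne, hy⟩), le_trans hyle hle⟩
  choose y hy hyle using hex
  have hyρ : y ρ = n₀ + k := by
    have h6 := hy ρ
    rw [hρ₁] at h6
    exact Finset.mem_singleton.mp h6
  obtain ⟨S₂, hS₂, h₂⟩ := St.attach_card hU h₁ (le_refl (n₀ + m)) hm ρ y hy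
    (by
      intro j
      rw [hyρ]
      exact hyle j)
  refine ⟨S₂, K₁ + 1, _, h₂, by omega, ?_, ?_, ?_⟩
  · intro j j' hj
    rw [Function.update_of_ne (hne j j' hj)]
    exact hsub j j' hj
  · rw [Function.update_self, hρ₁]
    exact Finset.mem_insert_of_mem (Finset.mem_singleton_self _)
  · rw [Function.update_self]
    exact Finset.mem_insert_self _ _

end Pool.Agent.Lib.MP_293cc0_an.U
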