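import Pool.Agent.Lib.MP_293cc0_an.U.Defs

/-!
# MP_293cc0_an, U-regime, module Twice (200 lines): a function which is used for two columns

`l` is joined to `A ⊆ [0, l)`, `r > l` is joined to `B ∪ {l}`, `B ⊆ [0, l)` disjoint from `A`; `x ∈ A` is the highest element of `A` in the column of `l`,
`y` the highest element of `B ∪ {l}` in the column of `r`. Afterwards the function can serve `x` or `y` in every column.

Write `d i j = dist (x i) (x j)`. Given `σ` let `P = {t | r < t < N, σ t = some true}` (these serve `x`), `Q = {t | r < t < N, σ t = some false}` (these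
serve `y`). Domain `D = {l} ∪ B ∪ P ∪ A ∪ {r} ∪ Q`, side `true` on `l`, `B`, `P`, side `false` on `A`, `r`, `Q`. Potential:
`p l = 0`, `p u = d u l` for `u ∈ A`, `p r = d l r`, `p b = d b r - d l r` for `b ∈ B`, `p t = d x t - d x l` for `t ∈ P`,
`p t = d y t - p y` for `t ∈ Q`, where `p y = d y r - d l r` (this is `0` for `y = l`).
(All elements of `A` and `B` are `< l`; define `p i = if i = l then 0 else if i = r then d l r else if i < l then (if i ∈ A then d i l else d i r - d l r)
else if σ i = some true then d x i - d x l else d y i - (d y r - d l r)`, side `decide (i = l ∨ (i < l ∧ i ∈ B) ∨ (r < i ∧ σ i = some true))`; indices strictly between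
`l` and `r` are not in `D`.)

Feasibility, `i` on side `true`, `j` on side `false` (all by `C.key`, the inequality between the weights is given in brackets; equal
indices give equality):
* `l` with `u ∈ A`: equality; `l` with `r`: equality; `l` with `t ∈ Q`: `d y t - d y r + d l r ≤ d l t`: `C.key r l y t` [`e r l ≤ e r y`].
* `b ∈ B` with `u ∈ A`: `d b r - d l r + d u l ≤ d b u`: `C.key u l b r` [`e u l ≤ e u b`, this is `hU u b l`]; `b` with `r`: equality;
  `b` with `t ∈ Q`: `d b r - d l r + d y t - d y r + d l r ≤ d b t`: `C.key r b y t` [`e r b ≤ e r y`].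
* `t ∈ P` with `u ∈ A`: `d x t - d x l + d u l ≤ d t u`: `C.key l u x t` [`e l u ≤ e l x`]; `t` with `r`: `d x t - d x l + d l r ≤ d t r`:
  `C.key l r x t` [`e l r ≤ e l x`, this is `hU l x r`].
* `t ∈ P` with `t' ∈ Q`: `d x t - d x l + d y t' - d y r + d l r ≤ d t t'`.
  If `t < t'`: `d y t' - d y r + d l r ≤ d l t'` (as above, `C.key r l y t'`), and `d x t + d l t' ≤ d x l + d t t'` by `C.key x t l t'` [`e x t ≤ e x l`, `hU x l t`].
  If `t' < t`: `d x t - d x l + d l r ≤ d r t` (as above, `C.key l r x t`), and `d y t' + d r t ≤ d y r + d t' t` by `C.key y t' r t` [`e y t' ≤ e y r`, `hU y r t'`].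
Tight: `A` with `l`, `l` with `x`, `B` with `r`, `r` with `l`, `P` with `x`, `Q` with `y`.
Tight pairs: `(u, l)` for `u ∈ A`, `(b, r)` for `b ∈ B`, `(l, r)`, `(x, t)` for `t ∈ P`, `(y, t)` for `t ∈ Q`.
-/

set_option autoImplicit false

namespace Pool.Agent.Lib.MP_293cc0_an.U

open Finset

variable {X : Type} [MetricSpace X] {N : ℕ}

/-- the potential of `stat_two` -/
noncomputable def twP (C : Comb X N) (l r : ℕ) (A : Finset ℕ) (x y : ℕ) (σ : ℕ → Option Bool) (i : ℕ) : ℝ :=
  if i = l then 0 else if i = r then dist (C.x l) (C.x r) else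
  if i < l then (if i ∈ A then dist (C.x i) (C.x l) else dist (C.x i) (C.x r) - dist (C.x l) (C.x r))
  else if σ i = some true then dist (C.x x) (C.x i) - dist (C.x x) (C.x l)
  else dist (C.x y) (C.x i) - (dist (C.x y) (C.x r) - dist (C.x l) (C.x r))

/-- the side of `stat_two` -/
def twS (l r : ℕ) (B : Finset ℕ) (σ : ℕ → Option Bool) (i : ℕ) : Bool :=
  decide (i = l ∨ (i < l ∧ i ∈ B) ∨ (r < i ∧ σ i = some true))

/-- the domain of `stat_two` -/
def twD (N l r : ℕ) (A B : Finset ℕ) (σ : ℕ → Option Bool) : Finset ℕ :=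
  (range N).filter fun i => i = l ∨ i = r ∨ i ∈ A ∨ i ∈ B ∨ (r < i ∧ σ i = some true) ∨ (r < i ∧ σ i = some false)

theorem twD_true {l r : ℕ} {A B : Finset ℕ}
    (hAB : Disjoint A B) {σ : ℕ → Option Bool} {i : ℕ} (hi : i ∈ twD N l r A B σ) (hs : twS l r B σ i = true) :
    i < N ∧ (i = l ∨ (i ∈ B ∧ i < l ∧ i ∉ A) ∨ (r < i ∧ σ i = some true)) := by
  unfold twD at hi
  unfold twS at hs
  rw [Finset.mem_filter, Finset.mem_range] at hi
  have hs' := of_decide_eq_true hs
  refine ⟨hi.1, ?_⟩
  rcases hs' with h | h | h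
  · exact Or.inl h
  · exact Or.inr (Or.inl ⟨h.2, h.1, fun h2 => (Finset.disjoint_left.1 hAB) h2 h.2⟩)
  · exact Or.inr (Or.inr h)

theorem twD_false {l r : ℕ} {A B : Finset ℕ} (hA : ∀ u ∈ A, u < l) (hB : ∀ u ∈ B, u < l)
    {σ : ℕ → Option Bool} {i : ℕ} (hi : i ∈ twD N l r A B σ) (hs : twS l r B σ i = false) :
    i < N ∧ ((i ∈ A ∧ i < l) ∨ i = r ∨ (r < i ∧ σ i = some false)) := by
  unfold twD at hi
  unfold twS at hs
  rw [Finset.mem_filter, Finset.mem_range] at hi
  have hs' := of_decide_eq_false hs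
  push Not at hs'
  refine ⟨hi.1, ?_⟩
  rcases hi.2 with h | h | h | h | h | h
  · exact absurd h hs'.1
  · exact Or.inr (Or.inl h)
  · exact Or.inl ⟨h, hA _ h⟩
  · exact absurd h (hs'.2.1 (hB _ h))
  · exact absurd h.2 (hs'.2.2 h.1)
  · exact Or.inr (Or.inr h)

theorem twP_l (C : Comb X N) {l r : ℕ} (A : Finset ℕ) (x y : ℕ) (σ : ℕ → Option Bool) :
    twP C l r A x y σ l = 0 := by
  unfold twP; rw [if_pos rfl]

theorem twP_r (C : Comb X N) {l r : ℕ} (hlr : l < r) (A : Finset ℕ) (x y : ℕ) (σ : ℕ → Option Bool) :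
    twP C l r A x y σ r = dist (C.x l) (C.x r) := by
  unfold twP; rw [if_neg (by omega), if_pos rfl]

theorem twP_A (C : Comb X N) {l r : ℕ} (hlr : l < r) (A : Finset ℕ) (x y : ℕ) (σ : ℕ → Option Bool) {u : ℕ}
    (hu : u ∈ A) (hul : u < l) : twP C l r A x y σ u = dist (C.x u) (C.x l) := by
  unfold twP; rw [if_neg (by omega), if_neg (by omega), if_pos hul, if_pos hu]

theorem twP_B (C : Comb X N) {l r : ℕ} (hlr : l < r) (A : Finset ℕ) (x y : ℕ) (σ : ℕ → Option Bool) {u : ℕ}
    (hu : u ∉ A) (hul : u < l) : twP C l r A x y σ u = dist (C.x u) (C.x r) - dist (C.x l) (C.x r) := by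
  unfold twP; rw [if_neg (by omega), if_neg (by omega), if_pos hul, if_neg hu]

theorem twP_P (C : Comb X N) {l r : ℕ} (hlr : l < r) (A : Finset ℕ) (x y : ℕ) (σ : ℕ → Option Bool) {t : ℕ}
    (ht : r < t) (hs : σ t = some true) :
    twP C l r A x y σ t = dist (C.x x) (C.x t) - dist (C.x x) (C.x l) := by
  unfold twP; rw [if_neg (by omega), if_neg (by omega), if_neg (by omega), if_pos hs]

theorem twP_Q (C : Comb X N) {l r : ℕ} (hlr : l < r) (A : Finset ℕ) (x y : ℕ) (σ : ℕ → Option Bool) {t : ℕ}
    (ht : r < t) (hs : σ t = some false) :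
    twP C l r A x y σ t = dist (C.x y) (C.x t) - (dist (C.x y) (C.x r) - dist (C.x l) (C.x r)) := by
  unfold twP; rw [if_neg (by omega), if_neg (by omega), if_neg (by omega), if_neg (by rw [hs]; simp)]

theorem twkey (C : Comb X N) (a b c t : ℕ) (ha : a < t) (hb : b < t) (hc : c < t) (ht : t < N) (hab : a ≠ b)
    (hac : a ≠ c) (h : C.e a b ≤ C.e a c) :
    dist (C.x a) (C.x b) + dist (C.x c) (C.x t) ≤ dist (C.x a) (C.x c) + dist (C.x b) (C.x t) := by
  by_cases hbc : b = c
  · subst hbc; exact le_refl _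
  · exact C.key a b c t ha hb hc ht hab hac hbc h

theorem stat_two {C : Comb X N} (hU : C.IsU) {l r : ℕ} (hlr : l < r) (hr : r < N)
    (A B : Finset ℕ) (hA : ∀ u ∈ A, u < l) (hB : ∀ u ∈ B, u < l) (hAB : Disjoint A B)
    {x y : ℕ} (hx : x ∈ A) (hxt : ∀ u ∈ A, C.e u l ≤ C.e x l) (hy : y ∈ insert l B)
    (hyt : ∀ u ∈ insert l B, C.e u r ≤ C.e y r) :
    Stat C ((A.image fun u => (u, l)) ∪ (insert l B).image fun u => (u, r)) x y r := by
  classical
  intro σ
  have hxl : x < l := hA x hx
  have hyr : y < r := by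
    rcases Finset.mem_insert.1 hy with h | h
    · omega
    · have := hB y h; omega
  have dc : ∀ i j, dist (C.x i) (C.x j) = dist (C.x j) (C.x i) := fun i j => dist_comm _ _
  have pl := twP_l C (l := l) (r := r) A x y σ
  have pr := twP_r C hlr A x y σ
  -- membership in the domain and sides
  have memD : ∀ i, i ∈ twD N l r A B σ ↔ i < N ∧ (i = l ∨ i = r ∨ i ∈ A ∨ i ∈ B ∨
      (r < i ∧ σ i = some true) ∨ (r < i ∧ σ i = some false)) := by
    intro i
    unfold twD
    rw [Finset.mem_filter, Finset.mem_range]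
  have lD : l ∈ twD N l r A B σ := (memD l).2 ⟨by omega, Or.inl rfl⟩
  have rD : r ∈ twD N l r A B σ := (memD r).2 ⟨hr, Or.inr (Or.inl rfl)⟩
  have AD : ∀ u ∈ A, u ∈ twD N l r A B σ := fun u hu =>
    (memD u).2 ⟨by have := hA u hu; omega, Or.inr (Or.inr (Or.inl hu))⟩
  have BD : ∀ u ∈ B, u ∈ twD N l r A B σ := fun u hu =>
    (memD u).2 ⟨by have := hB u hu; omega, Or.inr (Or.inr (Or.inr (Or.inl hu)))⟩
  have PD : ∀ t, r < t → t < N → σ t = some true → t ∈ twD N l r A B σ := fun t h1 h2 h3 =>
    (memD t).2 ⟨h2, Or.inr (Or.inr (Or.inr (Or.inr (Or.inl ⟨h1, h3⟩))))⟩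
  have QD : ∀ t, r < t → t < N → σ t = some false → t ∈ twD N l r A B σ := fun t h1 h2 h3 =>
    (memD t).2 ⟨h2, Or.inr (Or.inr (Or.inr (Or.inr (Or.inr ⟨h1, h3⟩))))⟩
  have ls : twS l r B σ l = true := by unfold twS; exact decide_eq_true (Or.inl rfl)
  have rs : twS l r B σ r = false := by
    unfold twS
    refine decide_eq_false ?_
    rintro (h | h | h) <;> omega
  have As : ∀ u ∈ A, twS l r B σ u = false := by
    intro u hu
    have h1 := hA u hu
    unfold twS
    refine decide_eq_false ?_
    rintro (h | h | h)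
    · omega
    · exact (Finset.disjoint_left.1 hAB) hu h.2
    · omega
  have Bs : ∀ u ∈ B, twS l r B σ u = true := by
    intro u hu
    unfold twS
    exact decide_eq_true (Or.inr (Or.inl ⟨hB u hu, hu⟩))
  have Ps : ∀ t, r < t → σ t = some true → twS l r B σ t = true := by
    intro t h1 h2
    unfold twS
    exact decide_eq_true (Or.inr (Or.inr ⟨h1, h2⟩))
  have Qs : ∀ t, r < t → σ t = some false → twS l r B σ t = false := by
    intro t h1 h2
    unfold twS
    refine decide_eq_false ?_
    rintro (h | h | h)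
    · omega
    · omega
    · rw [h2] at h; simp at h
  have pA : ∀ u ∈ A, twP C l r A x y σ u = dist (C.x u) (C.x l) := fun u hu =>
    twP_A C hlr A x y σ hu (hA u hu)
  have pB : ∀ u ∈ B, twP C l r A x y σ u = dist (C.x u) (C.x r) - dist (C.x l) (C.x r) := fun u hu =>
    twP_B C hlr A x y σ (fun h => (Finset.disjoint_left.1 hAB) h hu) (hB u hu)
  have py : twP C l r A x y σ y = dist (C.x y) (C.x r) - dist (C.x l) (C.x r) := by
    rcases Finset.mem_insert.1 hy with h | h
    · have h3 : twP C l r A x y σ y = 0 := by unfold twP; rw [if_pos h]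
      rw [h3, h]; ring
    · exact pB y h
  have ys : twS l r B σ y = true := by
    rcases Finset.mem_insert.1 hy with h | h
    · rw [h, ls]
    · exact Bs y h
  have yD : y ∈ twD N l r A B σ := by
    rcases Finset.mem_insert.1 hy with h | h
    · rw [h]; exact lD
    · exact BD y h
  -- two basic inequalities
  have hlQ : ∀ t, r < t → t < N → dist (C.x y) (C.x t) - dist (C.x y) (C.x r) + dist (C.x l) (C.x r) ≤
      dist (C.x l) (C.x t) := by
    intro t h1 h2
    have h3 := twkey C r l y t h1 (by omega) (by omega) h2 (by omega) (by omega)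
      (by rw [C.symm r l, C.symm r y]; exact hyt l (Finset.mem_insert_self _ _))
    rw [dc r l, dc r y] at h3
    linarith
  have hPr : ∀ t, r < t → t < N → dist (C.x x) (C.x t) - dist (C.x x) (C.x l) + dist (C.x l) (C.x r) ≤
      dist (C.x r) (C.x t) := by
    intro t h1 h2
    have h3 := twkey C l r x t (by omega) h1 (by omega) h2 (by omega) (by omega)
      (hU l x r hlr (by omega) (by omega) (by omega))
    rw [dc l x] at h3
    linarith
  have feas : ∀ i ∈ twD N l r A B σ, ∀ j ∈ twD N l r A B σ, twS l r B σ i = true → twS l r B σ j = false →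
      twP C l r A x y σ i + twP C l r A x y σ j ≤ dist (C.x i) (C.x j) := by
    intro i hi j hj hsi hsj
    obtain ⟨hiN, h1⟩ := twD_true hAB hi hsi
    obtain ⟨hjN, h2⟩ := twD_false hA hB hj hsj
    rcases h1 with h1 | ⟨hiB, hil, hiA⟩ | ⟨hri, hσi⟩
    · subst h1
      rw [pl]
      rcases h2 with ⟨hjA, hjl⟩ | h2 | ⟨hrj, hσj⟩
      · rw [pA j hjA, dc j i]; linarith
      · rw [h2, pr]; linarith
      · rw [twP_Q C hlr A x y σ hrj hσj]
        have := hlQ j hrj hjN
        linarith
    · rw [pB i hiB]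
      rcases h2 with ⟨hjA, hjl⟩ | h2 | ⟨hrj, hσj⟩
      · rw [pA j hjA]
        have h3 := twkey C j l i r (by omega) hlr (by omega) hr (by omega) (fun h => hiA (h ▸ hjA))
          (hU j i l hjl hil (by omega) (fun h => hiA (h ▸ hjA)))
        rw [dc j i] at h3
        linarith
      · rw [h2, pr]; linarith
      · rw [twP_Q C hlr A x y σ hrj hσj]
        have h3 := twkey C r i y j hrj (by omega) (by omega) hjN (by omega) (by omega)
          (by rw [C.symm r i, C.symm r y]; exact hyt i (Finset.mem_insert_of_mem hiB))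
        rw [dc r i, dc r y] at h3
        linarith
    · rw [twP_P C hlr A x y σ hri hσi]
      rcases h2 with ⟨hjA, hjl⟩ | h2 | ⟨hrj, hσj⟩
      · rw [pA j hjA]
        have h3 := twkey C l j x i (by omega) (by omega) (by omega) hiN (by omega) (by omega)
          (by rw [C.symm l j, C.symm l x]; exact hxt j hjA)
        rw [dc l j, dc l x, dc j i] at h3
        linarith
      · subst h2
        rw [pr]
        have h3 := hPr i hri hiN
        rw [dc j i] at h3
        linarith
      · rw [twP_Q C hlr A x y σ hrj hσj]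
        have hne : i ≠ j := by
          intro h
          rw [h] at hσi
          rw [hσi] at hσj
          simp at hσj
        rcases lt_or_gt_of_ne hne with hij | hji
        · have h3 := hlQ j hrj hjN
          have h4 := twkey C x i l j (by omega) hij (by omega) hjN (by omega) (by omega)
            (hU x l i (by omega) (by omega) (by omega) (by omega))
          linarith
        · have h3 := hPr i hri hiN
          have h4 := twkey C y j r i (by omega) hji hri hiN (by omega) (by omega)
            (hU y r j (by omega) hrj (by omega) (by omega))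
          rw [dc j i] at h4
          linarith
  have tight : ∀ i ∈ twD N l r A B σ, ∃ j ∈ twD N l r A B σ, twS l r B σ i ≠ twS l r B σ j ∧
      twP C l r A x y σ i + twP C l r A x y σ j = dist (C.x i) (C.x j) := by
    intro i hi
    rcases hb : twS l r B σ i with _ | _
    · obtain ⟨hjN, h2⟩ := twD_false hA hB hi hb
      rcases h2 with ⟨hjA, hjl⟩ | h2 | ⟨hrj, hσj⟩
      · refine ⟨l, lD, by rw [ls]; simp, ?_⟩
        rw [pA i hjA, pl]; ring
      · refine ⟨l, lD, by rw [ls]; simp, ?_⟩
        rw [h2, pr, pl, dc r l]; ring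
      · refine ⟨y, yD, by rw [ys]; simp, ?_⟩
        rw [twP_Q C hlr A x y σ hrj hσj, py, dc i y]; ring
    · obtain ⟨hiN, h1⟩ := twD_true hAB hi hb
      rcases h1 with h1 | ⟨hiB, hil, hiA⟩ | ⟨hri, hσi⟩
      · refine ⟨r, rD, by rw [rs]; simp, ?_⟩
        rw [h1, pl, pr]; ring
      · refine ⟨r, rD, by rw [rs]; simp, ?_⟩
        rw [pB i hiB, pr]; ring
      · refine ⟨x, AD x hx, by rw [As x hx]; simp, ?_⟩
        rw [twP_P C hlr A x y σ hri hσi, pA x hx, dc i x]; ring
  refine ⟨⟨twD N l r A B σ, twS l r B σ, twP C l r A x y σ, fun i hi => ((memD i).1 hi).1, feas, tight⟩, ?_, ?_⟩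
  · intro p hp
    rcases Finset.mem_union.1 hp with hp | hp
    · obtain ⟨u, hu, rfl⟩ := Finset.mem_image.1 hp
      refine ⟨AD u hu, lD, ?_, ?_⟩
      · show twS l r B σ u ≠ twS l r B σ l
        rw [As u hu, ls]; simp
      · show twP C l r A x y σ u + twP C l r A x y σ l = dist (C.x u) (C.x l)
        rw [pA u hu, pl]; ring
    · obtain ⟨u, hu, rfl⟩ := Finset.mem_image.1 hp
      rcases Finset.mem_insert.1 hu with h | h
      · subst h
        refine ⟨lD, rD, ?_, ?_⟩
        · show twS u r B σ u ≠ twS u r B σ r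
          rw [ls, rs]; simp
        · show twP C u r A x y σ u + twP C u r A x y σ r = dist (C.x u) (C.x r)
          rw [pl, pr]; ring
      · refine ⟨BD u h, rD, ?_, ?_⟩
        · show twS l r B σ u ≠ twS l r B σ r
          rw [Bs u h, rs]; simp
        · show twP C l r A x y σ u + twP C l r A x y σ r = dist (C.x u) (C.x r)
          rw [pB u h, pr]; ring
  · intro t ht1 ht2
    constructor
    · intro hs
      refine ⟨AD x hx, PD t ht1 ht2 hs, ?_, ?_⟩
      · show twS l r B σ x ≠ twS l r B σ t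
        rw [As x hx, Ps t ht1 hs]; simp
      · show twP C l r A x y σ x + twP C l r A x y σ t = dist (C.x x) (C.x t)
        rw [pA x hx, twP_P C hlr A x y σ ht1 hs]; ring
    · intro hs
      refine ⟨yD, QD t ht1 ht2 hs, ?_, ?_⟩
      · show twS l r B σ y ≠ twS l r B σ t
        rw [ys, Qs t ht1 hs]; simp
      · show twP C l r A x y σ y + twP C l r A x y σ t = dist (C.x y) (C.x t)
        rw [py, twP_Q C hlr A x y σ ht1 hs]; ring

end Pool.Agent.Lib.MP_293cc0_an.U
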